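import Mathlib

/-!
Classical local Riemannian geometry of an immersion `φ : ℝ^ι → S ⊂ E` into the unit sphere of a
real inner product space `E`.  The source carries the metric induced by `φ`.
-/

open scoped RealInnerProductSpace ContDiff

noncomputable section

namespace Pool.Agent.Lib.MP_4617b5_gt

variable {ι : Type*} [Fintype ι] [DecidableEq ι]
variable {E : Type*} [NormedAddCommGroup E] [InnerProductSpace ℝ E]
variable {F : Type*} [NormedAddCommGroup F] [NormedSpace ℝ F]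

/-- The partial derivative `∂ᵢ f (x)`. -/
def pd (i : ι) (f : (ι → ℝ) → F) (x : ι → ℝ) : F := fderiv ℝ f x (Pi.single i 1)

/-- The induced metric `g i j = ⟪∂ᵢ φ, ∂ⱼ φ⟫`. -/
def metric (φ : (ι → ℝ) → E) (x : ι → ℝ) : Matrix ι ι ℝ :=
  Matrix.of fun i j => ⟪pd i φ x, pd j φ x⟫

/-- The inverse matrix of the induced metric. -/
def invMetric (φ : (ι → ℝ) → E) (x : ι → ℝ) : Matrix ι ι ℝ := (metric φ x)⁻¹

/-- The Christoffel symbols `Γᵏᵢⱼ` of the induced metric (its Levi-Civita connection). -/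
def christoffel (φ : (ι → ℝ) → E) (x : ι → ℝ) (k i j : ι) : ℝ :=
  (1 / 2) * ∑ l, invMetric φ x k l *
    (pd i (fun y => metric φ y j l) x + pd j (fun y => metric φ y i l) x
      - pd l (fun y => metric φ y i j) x)

/-- The second fundamental form `B i j = B(∂ᵢ, ∂ⱼ)` of `φ` as an immersion into the unit sphere:
`∂ᵢ∂ⱼφ = Γᵏᵢⱼ ∂ₖφ + B i j - g i j φ` (Gauss formula). -/
def sff (φ : (ι → ℝ) → E) (x : ι → ℝ) (i j : ι) : E :=
  pd i (pd j φ) x - ∑ k, christoffel φ x k i j • pd k φ x + metric φ x i j • φ x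

/-- The tension field `τ(φ) = trace B = g^{ij} B i j`. -/
def tension (φ : (ι → ℝ) → E) (x : ι → ℝ) : E :=
  ∑ i, ∑ j, invMetric φ x i j • sff φ x i j

/-- The mean curvature vector field `H = (1/m) trace B`. -/
def meanCurv (φ : (ι → ℝ) → E) (x : ι → ℝ) : E :=
  (1 / (Fintype.card ι : ℝ)) • tension φ x

/-- The pull-back of the Levi-Civita connection of the unit sphere: for a vector field `ξ` along
`φ` tangent to the sphere, `∇ᵢ ξ` is the component of `∂ᵢ ξ` orthogonal to `φ`. -/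
def covSphere (φ : (ι → ℝ) → E) (i : ι) (ξ : (ι → ℝ) → E) (x : ι → ℝ) : E :=
  pd i ξ x - ⟪pd i ξ x, φ x⟫ • φ x

/-- Orthogonal projection onto the tangent space `span {∂ₖ φ}` of the immersion. -/
def tanProj (φ : (ι → ℝ) → E) (x : ι → ℝ) (v : E) : E :=
  ∑ k, ∑ l, (invMetric φ x k l * ⟪v, pd l φ x⟫) • pd k φ x

/-- The normal connection `∇ᵢ^⊥ ξ` of the immersion into the sphere. -/
def covNormal (φ : (ι → ℝ) → E) (i : ι) (ξ : (ι → ℝ) → E) (x : ι → ℝ) : E :=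
  covSphere φ i ξ x - tanProj φ x (covSphere φ i ξ x)

/-- The shape operator `A_ξ` as a (1,1)-tensor: `(A_ξ)ᵏᵢ = g^{kj} ⟪B i j, ξ⟫`. -/
def shapeOp (φ : (ι → ℝ) → E) (ξ : (ι → ℝ) → E) (x : ι → ℝ) (k i : ι) : ℝ :=
  ∑ j, invMetric φ x k j * ⟪sff φ x i j, ξ x⟫

/-- The covariant derivative `(∇ₗ A)ᵏᵢ` of a (1,1)-tensor field `A` for the Levi-Civita
connection of the induced metric. -/
def covTensor (φ : (ι → ℝ) → E) (A : (ι → ℝ) → ι → ι → ℝ) (x : ι → ℝ) (l k i : ι) : ℝ :=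
  pd l (fun y => A y k i) x + ∑ p, christoffel φ x k l p * A x p i
    - ∑ p, christoffel φ x p l i * A x k p

/-- The rough Laplacian `Δ ξ = - g^{ij} (∇ᵢ ∇ⱼ ξ - Γᵏᵢⱼ ∇ₖ ξ)` on vector fields along `φ` tangent
to the sphere. -/
def roughLap (φ : (ι → ℝ) → E) (ξ : (ι → ℝ) → E) (x : ι → ℝ) : E :=
  - ∑ i, ∑ j, invMetric φ x i j •
    (covSphere φ i (covSphere φ j ξ) x - ∑ k, christoffel φ x k i j • covSphere φ k ξ x)

/-- The curvature tensor `R(X,Y)Z = ⟪Y,Z⟫ X - ⟪X,Z⟫ Y` of the unit sphere. -/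
def curvSphere (X Y Z : E) : E := ⟪Y, Z⟫ • X - ⟪X, Z⟫ • Y

/-- The bitension field `τ₂(φ) = -Δ τ(φ) - trace R(dφ, τ(φ)) dφ`. -/
def bitension (φ : (ι → ℝ) → E) (x : ι → ℝ) : E :=
  - roughLap φ (tension φ) x
    - ∑ i, ∑ j, invMetric φ x i j • curvSphere (pd i φ x) (tension φ x) (pd j φ x)

/-- `φ` is a smooth immersion into the unit sphere of `E`. -/
def IsImmersionInSphere (φ : (ι → ℝ) → E) : Prop :=
  ContDiff ℝ ∞ φ ∧ (∀ x, ‖φ x‖ = 1) ∧ ∀ x, Function.Injective (fderiv ℝ φ x)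

/-- Parallel mean curvature: `∇^⊥ H = 0`. -/
def IsPMC (φ : (ι → ℝ) → E) : Prop := ∀ x i, covNormal φ i (meanCurv φ) x = 0

/-- Proper biharmonic: the bitension field vanishes, the tension field does not. -/
def IsProperBiharmonic (φ : (ι → ℝ) → E) : Prop :=
  (∀ x, bitension φ x = 0) ∧ ∃ x, tension φ x ≠ 0

/-- `∇ A_H = 0`. -/
def HasParallelShape (φ : (ι → ℝ) → E) : Prop :=
  ∀ x l k i, covTensor φ (shapeOp φ (meanCurv φ)) x l k i = 0

end Pool.Agent.Lib.MP_4617b5_gt
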