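import Pool.Agent.Lib.MP_4617b5_gt.Hom

/-!
The example: product of a homogeneous isoparametric hypersurface (an `SO(3)` orbit) and a flat
torus.
-/

open scoped RealInnerProductSpace ContDiff Matrix

noncomputable section

namespace Pool.Agent.Lib.MP_4617b5_gt

namespace Ex

/-- coordinates of the model space: `3 × 3` matrices and seven planes -/
abbrev Ix : Type := (Fin 3 × Fin 3) ⊕ (Fin 7 × Fin 2)

abbrev E0 : Type := EuclideanSpace ℝ Ix

/-- numerator of the Cayley parametrisation of the rotation group -/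
def Kq (a b c : ℝ) : Matrix (Fin 3) (Fin 3) ℝ :=
  !![1 + a ^ 2 - b ^ 2 - c ^ 2, 2 * (a * b - c), 2 * (a * c + b);
     2 * (a * b + c), 1 - a ^ 2 + b ^ 2 - c ^ 2, 2 * (b * c - a);
     2 * (a * c - b), 2 * (b * c + a), 1 - a ^ 2 - b ^ 2 + c ^ 2]

def rq (a b c : ℝ) : ℝ := 1 + a ^ 2 + b ^ 2 + c ^ 2

theorem rq_pos (a b c : ℝ) : 0 < rq a b c := by unfold rq; positivity

abbrev i0 : Fin (3 + 7) := Fin.castAdd 7 0
abbrev i1 : Fin (3 + 7) := Fin.castAdd 7 1
abbrev i2 : Fin (3 + 7) := Fin.castAdd 7 2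

/-- the rotation matrix -/
def kk (x : Fin (3 + 7) → ℝ) : Matrix (Fin 3) (Fin 3) ℝ :=
  (rq (x i0) (x i1) (x i2))⁻¹ • Kq (x i0) (x i1) (x i2)

theorem Kq_orth (a b c : ℝ) : (Kq a b c)ᵀ * Kq a b c = (rq a b c ^ 2) • 1 := by
  ext p q
  fin_cases p <;> fin_cases q <;>
    simp [Kq, rq, Matrix.mul_apply, Fin.sum_univ_three] <;> ring

theorem kk_orth (x : Fin (3 + 7) → ℝ) : (kk x)ᵀ * kk x = 1 := by
  unfold kk
  have h := (rq_pos (x i0) (x i1) (x i2)).ne'
  rw [Matrix.transpose_smul, Matrix.smul_mul, Matrix.mul_smul, Kq_orth, smul_smul, smul_smul]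
  have : (rq (x i0) (x i1) (x i2))⁻¹ * (rq (x i0) (x i1) (x i2))⁻¹ * rq (x i0) (x i1) (x i2) ^ 2
      = 1 := by
    field_simp
  rw [this, one_smul]

/-- basis of `so(3)` -/
def Em : Fin 3 → Matrix (Fin 3) (Fin 3) ℝ :=
  ![!![0, 0, 0; 0, 0, -1; 0, 1, 0], !![0, 0, 1; 0, 0, 0; -1, 0, 0], !![0, -1, 0; 1, 0, 0; 0, 0, 0]]

theorem Em_skew (i : Fin 3) : (Em i)ᵀ = -Em i := by
  ext p q
  fin_cases i <;> fin_cases p <;> fin_cases q <;> simp [Em]

/-- left invariant fields in the Cayley chart -/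
def wv (i : Fin 3) (a b c : ℝ) : Fin 3 → ℝ :=
  match i with
  | 0 => ![(1 + a ^ 2) / 2, (c + a * b) / 2, (-b + a * c) / 2]
  | 1 => ![(-c + a * b) / 2, (1 + b ^ 2) / 2, (a + b * c) / 2]
  | 2 => ![(b + a * c) / 2, (-a + b * c) / 2, (1 + c ^ 2) / 2]

/-- derivative of `Kq` -/
def dK (a b c a' b' c' : ℝ) : Matrix (Fin 3) (Fin 3) ℝ :=
  !![2 * a * a' - 2 * b * b' - 2 * c * c', 2 * (a' * b + a * b' - c'), 2 * (a' * c + a * c' + b');
     2 * (a' * b + a * b' + c'), - 2 * a * a' + 2 * b * b' - 2 * c * c',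
     2 * (b' * c + b * c' - a');
     2 * (a' * c + a * c' - b'), 2 * (b' * c + b * c' + a'), - 2 * a * a' - 2 * b * b' + 2 * c * c']

theorem dK_wv (i : Fin 3) (a b c : ℝ) :
    dK a b c (wv i a b c 0) (wv i a b c 1) (wv i a b c 2)
      = Kq a b c * Em i + (![a, b, c] i) • Kq a b c := by
  ext p q
  fin_cases i <;> fin_cases p <;> fin_cases q <;>
    simp [dK, Kq, wv, Em] <;> ring

theorem fderiv_coord (m : Fin (3 + 7)) (x w : Fin (3 + 7) → ℝ) :
    fderiv ℝ (fun y : Fin (3 + 7) → ℝ => y m) x w = w m := by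
  rw [(hasFDerivAt_apply m x).fderiv]
  rfl

theorem fderiv_K (x w : Fin (3 + 7) → ℝ) (p q : Fin 3) :
    fderiv ℝ (fun y : Fin (3 + 7) → ℝ => Kq (y i0) (y i1) (y i2) p q) x w
      = dK (x i0) (x i1) (x i2) (w i0) (w i1) (w i2) p q := by
  fin_cases p <;> fin_cases q <;>
    simp (disch := fun_prop) [Kq, dK, fderiv_fun_add, fderiv_fun_sub, fderiv_fun_mul,
      fderiv_fun_pow, fderiv_coord] <;> ring

theorem contDiff_K (p q : Fin 3) :
    ContDiff ℝ ∞ (fun y : Fin (3 + 7) → ℝ => Kq (y i0) (y i1) (y i2) p q) := by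
  fin_cases p <;> fin_cases q <;> simp [Kq] <;> fun_prop

theorem contDiff_rq :
    ContDiff ℝ ∞ (fun y : Fin (3 + 7) → ℝ => rq (y i0) (y i1) (y i2)) := by
  unfold rq
  fun_prop

theorem contDiff_kk (p q : Fin 3) :
    ContDiff ℝ ∞ (fun y : Fin (3 + 7) → ℝ => kk y p q) := by
  unfold kk
  simp only [Matrix.smul_apply, smul_eq_mul]
  exact (contDiff_rq.inv fun x => (rq_pos _ _ _).ne').mul (contDiff_K p q)

theorem fderiv_rq (x w : Fin (3 + 7) → ℝ) :
    fderiv ℝ (fun y : Fin (3 + 7) → ℝ => rq (y i0) (y i1) (y i2)) x w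
      = 2 * (x i0 * w i0 + x i1 * w i1 + x i2 * w i2) := by
  unfold rq
  simp (disch := fun_prop) [fderiv_fun_add, fderiv_fun_pow, fderiv_coord]
  ring

/-- the directional derivative of the rotation matrix along a left-invariant field -/
theorem fderiv_kk (i : Fin 3) (x w : Fin (3 + 7) → ℝ) (c : ℝ)
    (h0 : w i0 = c * wv i (x i0) (x i1) (x i2) 0) (h1 : w i1 = c * wv i (x i0) (x i1) (x i2) 1)
    (h2 : w i2 = c * wv i (x i0) (x i1) (x i2) 2) (p q : Fin 3) :
    fderiv ℝ (fun y : Fin (3 + 7) → ℝ => kk y p q) x w = c * (kk x * Em i) p q := by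
  have hr : rq (x i0) (x i1) (x i2) ≠ 0 := (rq_pos _ _ _).ne'
  have hdk : DifferentiableAt ℝ (fun y : Fin (3 + 7) → ℝ => kk y p q) x :=
    ((contDiff_kk p q).differentiable (by simp)) x
  have hdr : DifferentiableAt ℝ (fun y : Fin (3 + 7) → ℝ => rq (y i0) (y i1) (y i2)) x :=
    (contDiff_rq.differentiable (by simp)) x
  have hK : (fun y : Fin (3 + 7) → ℝ => Kq (y i0) (y i1) (y i2) p q)
      = fun y => rq (y i0) (y i1) (y i2) * kk y p q := by
    funext y
    have := (rq_pos (y i0) (y i1) (y i2)).ne'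
    simp only [kk, Matrix.smul_apply, smul_eq_mul]
    field_simp
  have h3 := fderiv_K x w p q
  rw [hK, fderiv_fun_mul hdr hdk] at h3
  simp only [_root_.add_apply, _root_.smul_apply, smul_eq_mul] at h3
  rw [fderiv_rq, h0, h1, h2] at h3
  have h4 : dK (x i0) (x i1) (x i2) (c * wv i (x i0) (x i1) (x i2) 0)
      (c * wv i (x i0) (x i1) (x i2) 1) (c * wv i (x i0) (x i1) (x i2) 2) p q
      = c * (Kq (x i0) (x i1) (x i2) * Em i + (![x i0, x i1, x i2] i) • Kq (x i0) (x i1) (x i2)) p q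
      := by
    rw [← dK_wv]
    fin_cases p <;> fin_cases q <;> simp [dK] <;> ring
  rw [h4] at h3
  have h5 : 2 * (x i0 * (c * wv i (x i0) (x i1) (x i2) 0) + x i1 * (c * wv i (x i0) (x i1) (x i2) 1)
      + x i2 * (c * wv i (x i0) (x i1) (x i2) 2))
      = c * (![x i0, x i1, x i2] i) * rq (x i0) (x i1) (x i2) := by
    fin_cases i <;> simp [wv, rq] <;> ring
  rw [h5] at h3
  have h6 : Kq (x i0) (x i1) (x i2) = rq (x i0) (x i1) (x i2) • kk x := by
    unfold kk
    rw [smul_smul, mul_inv_cancel₀ hr, one_smul]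
  rw [h6, Matrix.smul_mul] at h3
  simp only [Matrix.add_apply, Matrix.smul_apply, smul_eq_mul] at h3
  have h7 : rq (x i0) (x i1) (x i2)
      * (fderiv ℝ (fun y : Fin (3 + 7) → ℝ => kk y p q) x w - c * (kk x * Em i) p q) = 0 := by
    linarith
  rcases mul_eq_zero.1 h7 with h8 | h8
  · exact absurd h8 hr
  · linarith

theorem fderiv_kk_zero (x w : Fin (3 + 7) → ℝ)
    (h0 : w i0 = 0) (h1 : w i1 = 0) (h2 : w i2 = 0) (p q : Fin 3) :
    fderiv ℝ (fun y : Fin (3 + 7) → ℝ => kk y p q) x w = 0 := by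
  have := fderiv_kk 0 x w 0 (by simp [h0]) (by simp [h1]) (by simp [h2]) p q
  simpa using this

/-- matrix part -/
def mat (v : E0) : Matrix (Fin 3) (Fin 3) ℝ := Matrix.of fun p q => v (Sum.inl (p, q))

/-- plane parts -/
def vec (v : E0) (j : Fin 7) : Fin 2 → ℝ := fun m => v (Sum.inr (j, m))

/-- rebuild a vector -/
def mk (M : Matrix (Fin 3) (Fin 3) ℝ) (z : Fin 7 → Fin 2 → ℝ) : E0 :=
  WithLp.toLp 2 (Sum.elim (fun pq => M pq.1 pq.2) (fun jm => z jm.1 jm.2))

@[simp] theorem mk_inl (M : Matrix (Fin 3) (Fin 3) ℝ) (z : Fin 7 → Fin 2 → ℝ) (p q : Fin 3) :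
    mk M z (Sum.inl (p, q)) = M p q := rfl

@[simp] theorem mk_inr (M : Matrix (Fin 3) (Fin 3) ℝ) (z : Fin 7 → Fin 2 → ℝ) (j : Fin 7)
    (m : Fin 2) : mk M z (Sum.inr (j, m)) = z j m := rfl

@[simp] theorem mat_mk (M : Matrix (Fin 3) (Fin 3) ℝ) (z : Fin 7 → Fin 2 → ℝ) :
    mat (mk M z) = M := rfl

@[simp] theorem vec_mk (M : Matrix (Fin 3) (Fin 3) ℝ) (z : Fin 7 → Fin 2 → ℝ) (j : Fin 7) :
    vec (mk M z) j = z j := rfl

theorem inner_mk (M M' : Matrix (Fin 3) (Fin 3) ℝ) (z z' : Fin 7 → Fin 2 → ℝ) :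
    ⟪mk M z, mk M' z'⟫ = (Mᵀ * M').trace + ∑ j, (z j 0 * z' j 0 + z j 1 * z' j 1) := by
  rw [PiLp.inner_apply, Fintype.sum_sum_type, Fintype.sum_prod_type, Fintype.sum_prod_type]
  congr 1
  · simp only [mk_inl, Matrix.trace, Matrix.diag, Matrix.mul_apply, Matrix.transpose_apply]
    rw [Finset.sum_comm]
    refine Finset.sum_congr rfl fun p _ => Finset.sum_congr rfl fun q _ => ?_
    simp [mul_comm]
  · refine Finset.sum_congr rfl fun j _ => ?_
    rw [Fin.sum_univ_two]
    simp only [mk_inr]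
    simp [mul_comm]

theorem eq_mk (v : E0) : v = mk (mat v) (vec v) := by
  ext s
  rcases s with ⟨p, q⟩ | ⟨j, m⟩ <;> rfl

/-- rotation of the plane -/
def rot (θ : ℝ) (z : Fin 2 → ℝ) : Fin 2 → ℝ :=
  ![Real.cos θ * z 0 - Real.sin θ * z 1, Real.sin θ * z 0 + Real.cos θ * z 1]

/-- quarter turn -/
def Jm (z : Fin 2 → ℝ) : Fin 2 → ℝ := ![- z 1, z 0]

def Rfun (x : Fin (3 + 7) → ℝ) (v : E0) : E0 :=
  mk (kk x * mat v * (kk x)ᵀ) (fun j => rot (x (Fin.natAdd 3 j)) (vec v j))

/-- the isometries of the model space -/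
def Riso (x : Fin (3 + 7) → ℝ) : E0 →ₗᵢ[ℝ] E0 where
  toFun := Rfun x
  map_add' := by
    intro u v
    ext s
    rcases s with ⟨p, q⟩ | ⟨j, m⟩
    · simp only [Rfun, PiLp.add_apply, mk_inl]
      have : mat (u + v) = mat u + mat v := by ext p q; rfl
      rw [this, Matrix.mul_add, Matrix.add_mul]
      rfl
    · simp only [Rfun, PiLp.add_apply, mk_inr]
      have : vec (u + v) j = vec u j + vec v j := by ext m; rfl
      rw [this]
      fin_cases m <;> simp [rot] <;> ring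
  map_smul' := by
    intro c u
    ext s
    rcases s with ⟨p, q⟩ | ⟨j, m⟩
    · simp only [Rfun, PiLp.smul_apply, mk_inl, RingHom.id_apply]
      have : mat (c • u) = c • mat u := by ext p q; rfl
      rw [this, Matrix.mul_smul, Matrix.smul_mul]
      rfl
    · simp only [Rfun, PiLp.smul_apply, mk_inr, RingHom.id_apply]
      have : vec (c • u) j = c • vec u j := by ext m; rfl
      rw [this]
      fin_cases m <;> simp [rot] <;> ring
  norm_map' := by
    intro u
    change ‖Rfun x u‖ = ‖u‖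
    have h : ⟪Rfun x u, Rfun x u⟫ = ⟪u, u⟫ := by
      conv_rhs => rw [eq_mk u]
      rw [Rfun, inner_mk, inner_mk]
      congr 1
      · have h1 : (kk x * mat u * (kk x)ᵀ)ᵀ * (kk x * mat u * (kk x)ᵀ)
            = kk x * ((mat u)ᵀ * mat u * (kk x)ᵀ) := by
          rw [Matrix.transpose_mul, Matrix.transpose_mul, Matrix.transpose_transpose]
          calc kk x * ((mat u)ᵀ * (kk x)ᵀ) * (kk x * mat u * (kk x)ᵀ)
              = kk x * ((mat u)ᵀ * ((kk x)ᵀ * kk x) * mat u * (kk x)ᵀ) := by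
                simp only [Matrix.mul_assoc]
            _ = kk x * ((mat u)ᵀ * mat u * (kk x)ᵀ) := by
                rw [kk_orth, Matrix.mul_one]
        rw [h1, Matrix.trace_mul_comm, Matrix.mul_assoc, kk_orth, Matrix.mul_one]
      · refine Finset.sum_congr rfl fun j _ => ?_
        simp only [rot, Matrix.cons_val_zero, Matrix.cons_val_one]
        have h2 := Real.sin_sq_add_cos_sq (x (Fin.natAdd 3 j))
        have h3 : Real.sin (x (Fin.natAdd 3 j)) ^ 2
            = 1 - Real.cos (x (Fin.natAdd 3 j)) ^ 2 := by linarith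
        ring_nf
        rw [h3]
        ring
    rw [real_inner_self_eq_norm_sq, real_inner_self_eq_norm_sq] at h
    exact (sq_eq_sq₀ (norm_nonneg _) (norm_nonneg _)).1 h

theorem Riso_apply (x : Fin (3 + 7) → ℝ) (v : E0) : Riso x v = Rfun x v := rfl

/-- normalisation constants -/
def cc : Fin 3 → ℝ := ![√5 / 2, (5 + √5) / 4, (√5 - 5) / 4]

/-- The frame fields -/
def Wf (a : Fin (3 + 7)) (x : Fin (3 + 7) → ℝ) : Fin (3 + 7) → ℝ :=
  Fin.addCases
    (fun i => fun m => Fin.addCases (motive := fun _ => ℝ)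
      (fun m' => cc i * wv i (x i0) (x i1) (x i2) m') (fun _ => 0) m)
    (fun j => fun m => Fin.addCases (motive := fun _ => ℝ)
      (fun _ => 0) (fun m' => if m' = j then √15 else 0) m) a

theorem Wf_l_l (i m : Fin 3) (x : Fin (3 + 7) → ℝ) :
    Wf (Fin.castAdd 7 i) x (Fin.castAdd 7 m) = cc i * wv i (x i0) (x i1) (x i2) m := by
  simp only [Wf, Fin.addCases_left]

theorem Wf_l_r (i : Fin 3) (m : Fin 7) (x : Fin (3 + 7) → ℝ) :
    Wf (Fin.castAdd 7 i) x (Fin.natAdd 3 m) = 0 := by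
  simp only [Wf, Fin.addCases_left, Fin.addCases_right]

theorem Wf_r_l (i : Fin 7) (m : Fin 3) (x : Fin (3 + 7) → ℝ) :
    Wf (Fin.natAdd 3 i) x (Fin.castAdd 7 m) = 0 := by
  simp only [Wf, Fin.addCases_left, Fin.addCases_right]

theorem Wf_r_r (i m : Fin 7) (x : Fin (3 + 7) → ℝ) :
    Wf (Fin.natAdd 3 i) x (Fin.natAdd 3 m) = if m = i then √15 else 0 := by
  simp only [Wf, Fin.addCases_right]

theorem contDiff_Wf (a : Fin (3 + 7)) : ContDiff ℝ ∞ (Wf a) := by
  rw [contDiff_pi]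
  intro m
  induction a using Fin.addCases with
  | left i =>
    induction m using Fin.addCases with
    | left m =>
      simp only [Wf_l_l]
      fin_cases i <;> fin_cases m <;> simp [wv] <;> fun_prop
    | right m =>
      simp only [Wf_l_r]
      fun_prop
  | right i =>
    induction m using Fin.addCases with
    | left m =>
      simp only [Wf_r_l]
      fun_prop
    | right m =>
      simp only [Wf_r_r]
      fun_prop

/-- The infinitesimal generators. -/
def Af (a : Fin (3 + 7)) (v : E0) : E0 :=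
  Fin.addCases (motive := fun _ => E0)
    (fun i => mk (cc i • (Em i * mat v - mat v * Em i)) 0)
    (fun j => mk 0 (fun j' => if j' = j then √15 • Jm (vec v j) else 0)) a

theorem Af_l (i : Fin 3) (v : E0) :
    Af (Fin.castAdd 7 i) v = mk (cc i • (Em i * mat v - mat v * Em i)) 0 := by
  simp only [Af, Fin.addCases_left]

theorem Af_r (j : Fin 7) (v : E0) :
    Af (Fin.natAdd 3 j) v = mk 0 (fun j' => if j' = j then √15 • Jm (vec v j) else 0) := by
  simp only [Af, Fin.addCases_right]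

theorem contDiff_R (v : E0) : ContDiff ℝ ∞ (fun x => Riso x v) := by
  rw [contDiff_euclidean]
  rintro (⟨p, q⟩ | ⟨j, m⟩)
  · simp only [Riso_apply, Rfun, mk_inl, Matrix.mul_apply, Matrix.transpose_apply]
    refine ContDiff.sum fun r _ => ?_
    refine ContDiff.mul (ContDiff.sum fun s _ => ?_) (contDiff_kk q r)
    exact (contDiff_kk p s).mul contDiff_const
  · simp only [Riso_apply, Rfun, mk_inr]
    fin_cases m <;> simp [rot] <;> fun_prop

theorem fderiv_entry (f : (Fin (3 + 7) → ℝ) → E0) (hf : ContDiff ℝ ∞ f)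
    (x w : Fin (3 + 7) → ℝ) (s : Ix) :
    (fderiv ℝ f x w) s = fderiv ℝ (fun y => f y s) x w := by
  have h0 : HasFDerivAt f (fderiv ℝ f x) x := ((hf.differentiable (by simp)) x).hasFDerivAt
  have h := (hasFDerivWithinAt_euclidean.1 (hasFDerivWithinAt_univ.2 h0)) s
  rw [(hasFDerivWithinAt_univ.1 h).fderiv]
  rfl

theorem fderiv_R (a : Fin (3 + 7)) (x : Fin (3 + 7) → ℝ) (v : E0) :
    fderiv ℝ (fun y => Riso y v) x (Wf a x) = Riso x (Af a v) := by
  have hk : ∀ p q, DifferentiableAt ℝ (fun y : Fin (3 + 7) → ℝ => kk y p q) x := fun p q =>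
    ((contDiff_kk p q).differentiable (by simp)) x
  -- derivative of the matrix entries
  have hmat : ∀ (w : Fin (3 + 7) → ℝ) (D : Matrix (Fin 3) (Fin 3) ℝ)
      (hD : ∀ p q, fderiv ℝ (fun y : Fin (3 + 7) → ℝ => kk y p q) x w = D p q) (p q : Fin 3),
      fderiv ℝ (fun y => Riso y v (Sum.inl (p, q))) x w
        = (D * mat v * (kk x)ᵀ + kk x * mat v * Dᵀ) p q := by
    intro w D hD p q
    simp only [Riso_apply, Rfun, mk_inl, Matrix.mul_apply, Matrix.transpose_apply,
      Matrix.add_apply]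
    rw [fderiv_fun_sum fun r _ => ((DifferentiableAt.fun_sum fun s _ =>
      (hk p s).mul_const (mat v s r)).fun_mul (hk q r))]
    rw [_root_.sum_apply, ← Finset.sum_add_distrib]
    refine Finset.sum_congr rfl fun r _ => ?_
    rw [fderiv_fun_mul (DifferentiableAt.fun_sum fun s _ => (hk p s).mul_const (mat v s r))
      (hk q r)]
    simp only [_root_.add_apply, _root_.smul_apply, smul_eq_mul, hD]
    rw [fderiv_fun_sum fun s _ => (hk p s).mul_const (mat v s r), _root_.sum_apply]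
    have h1 : ∀ s, fderiv ℝ (fun y : Fin (3 + 7) → ℝ => kk y p s * mat v s r) x w
        = D p s * mat v s r := by
      intro s
      rw [fderiv_mul_const (hk p s)]
      simp only [_root_.smul_apply, smul_eq_mul, hD]
      ring
    simp only [h1]
    ring
  have hpl : ∀ (w : Fin (3 + 7) → ℝ) (j : Fin 7) (m : Fin 2),
      fderiv ℝ (fun y => Riso y v (Sum.inr (j, m))) x w
        = w (Fin.natAdd 3 j) * rot (x (Fin.natAdd 3 j)) (Jm (vec v j)) m := by
    intro w j m
    simp only [Riso_apply, Rfun, mk_inr]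
    have hc : HasFDerivAt (fun y : Fin (3 + 7) → ℝ => y (Fin.natAdd 3 j))
      (ContinuousLinearMap.proj (R := ℝ) (φ := fun _ : Fin (3 + 7) => ℝ) (Fin.natAdd 3 j)) x :=
      hasFDerivAt_apply _ x
    have hcos := hc.cos
    have hsin := hc.sin
    fin_cases m
    · have h1 := (hcos.mul_const (vec v j 0)).sub (hsin.mul_const (vec v j 1))
      have h2 : (fun y : Fin (3 + 7) → ℝ => rot (y (Fin.natAdd 3 j)) (vec v j) 0)
        = (fun y => Real.cos (y (Fin.natAdd 3 j)) * vec v j 0)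
          - (fun y => Real.sin (y (Fin.natAdd 3 j)) * vec v j 1) := by
        funext y
        simp [rot]
      change fderiv ℝ (fun y : Fin (3 + 7) → ℝ => rot (y (Fin.natAdd 3 j)) (vec v j) 0) x w = _
      rw [h2, h1.fderiv]
      simp [rot, Jm]
      ring
    · have h1 := (hsin.mul_const (vec v j 0)).add (hcos.mul_const (vec v j 1))
      have h2 : (fun y : Fin (3 + 7) → ℝ => rot (y (Fin.natAdd 3 j)) (vec v j) 1)
        = (fun y => Real.sin (y (Fin.natAdd 3 j)) * vec v j 0)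
          + (fun y => Real.cos (y (Fin.natAdd 3 j)) * vec v j 1) := by
        funext y
        simp [rot]
      change fderiv ℝ (fun y : Fin (3 + 7) → ℝ => rot (y (Fin.natAdd 3 j)) (vec v j) 1) x w = _
      rw [h2, h1.fderiv]
      simp [rot, Jm]
      ring
  ext s
  rw [fderiv_entry _ (contDiff_R v)]
  induction a using Fin.addCases with
  | left i =>
    rcases s with ⟨p, q⟩ | ⟨j, m⟩
    · rw [hmat (Wf (Fin.castAdd 7 i) x) (cc i • (kk x * Em i)) (fun p q => by
        rw [fderiv_kk i x _ (cc i) (Wf_l_l i 0 x) (Wf_l_l i 1 x) (Wf_l_l i 2 x)]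
        rfl) p q]
      rw [Af_l]
      simp only [Riso_apply, Rfun, mk_inl, mat_mk]
      rw [Matrix.transpose_smul, Matrix.transpose_mul, Em_skew]
      simp only [Matrix.smul_mul, Matrix.mul_smul, Matrix.mul_sub, Matrix.sub_mul, smul_sub,
        Matrix.neg_mul, Matrix.mul_neg, Matrix.mul_assoc, smul_neg]
      rw [sub_eq_add_neg]
    · rw [hpl, Wf_l_r, zero_mul, Af_l]
      simp only [Riso_apply, Rfun, mk_inr, vec_mk]
      fin_cases m <;> simp [rot]
  | right i =>
    rcases s with ⟨p, q⟩ | ⟨j, m⟩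
    · rw [hmat (Wf (Fin.natAdd 3 i) x) 0 (fun p q => by
        rw [fderiv_kk_zero x _ (Wf_r_l i 0 x) (Wf_r_l i 1 x) (Wf_r_l i 2 x)]
        rfl) p q]
      rw [Af_r]
      simp only [Riso_apply, Rfun, mk_inl, mat_mk]
      simp
    · rw [hpl, Wf_r_r, Af_r]
      simp only [Riso_apply, Rfun, mk_inr, vec_mk]
      by_cases hji : j = i
      · subst hji
        fin_cases m <;> simp [rot, Jm] <;> ring
      · fin_cases m <;> simp [rot, hji]

/-- diagonal matrices -/
def Dg (a b c : ℝ) : Matrix (Fin 3) (Fin 3) ℝ := !![a, 0, 0; 0, b, 0; 0, 0, c]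

/-- off-diagonal symmetric matrices -/
def Sm : Fin 3 → Matrix (Fin 3) (Fin 3) ℝ :=
  ![!![0, 0, 0; 0, 0, 1; 0, 1, 0], !![0, 0, 1; 0, 0, 0; 1, 0, 0], !![0, 1, 0; 1, 0, 0; 0, 0, 0]]

theorem comm_Dg (i : Fin 3) (a b c : ℝ) :
    Em i * Dg a b c - Dg a b c * Em i = (![b - c, c - a, a - b] i) • Sm i := by
  ext p q
  fin_cases i <;> fin_cases p <;> fin_cases q <;>
    simp [Em, Dg, Sm] <;> ring

theorem comm_Sm (i : Fin 3) :
    Em i * Sm i - Sm i * Em i = Dg (![0, 2, -2] i) (![-2, 0, 2] i) (![2, -2, 0] i) := by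
  ext p q
  fin_cases i <;> fin_cases p <;> fin_cases q <;>
    simp [Em, Dg, Sm] <;> norm_num

theorem comm_01 : Em 0 * Sm 1 - Sm 1 * Em 0 = - Sm 2 := by
  ext p q
  fin_cases p <;> fin_cases q <;> simp [Em, Sm]

theorem Dg_add (a b c a' b' c' : ℝ) : Dg a b c + Dg a' b' c' = Dg (a + a') (b + b') (c + c') := by
  ext p q
  fin_cases p <;> fin_cases q <;> simp [Dg]

theorem smul_Dg (r a b c : ℝ) : r • Dg a b c = Dg (r * a) (r * b) (r * c) := by
  ext p q
  fin_cases p <;> fin_cases q <;> simp [Dg]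

theorem mk_add (M M' : Matrix (Fin 3) (Fin 3) ℝ) (z z' : Fin 7 → Fin 2 → ℝ) :
    mk M z + mk M' z' = mk (M + M') (z + z') := by
  ext s
  rcases s with ⟨p, q⟩ | ⟨j, m⟩ <;> rfl

theorem smul_mk (r : ℝ) (M : Matrix (Fin 3) (Fin 3) ℝ) (z : Fin 7 → Fin 2 → ℝ) :
    r • mk M z = mk (r • M) (r • z) := by
  ext s
  rcases s with ⟨p, q⟩ | ⟨j, m⟩ <;> rfl

theorem mk_sum {α : Type*} (t : Finset α) (M : α → Matrix (Fin 3) (Fin 3) ℝ)
    (z : α → Fin 7 → Fin 2 → ℝ) :
    ∑ a ∈ t, mk (M a) (z a) = mk (∑ a ∈ t, M a) (∑ a ∈ t, z a) := by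
  classical
  induction t using Finset.induction_on with
  | empty =>
    ext s
    rcases s with ⟨p, q⟩ | ⟨j, m⟩ <;> simp
  | insert a t ha ih =>
    rw [Finset.sum_insert ha, Finset.sum_insert ha, Finset.sum_insert ha, ih, mk_add]

/-- the standard plane vectors -/
def zz (r s : ℝ) : Fin 2 → ℝ := ![r, s]

theorem Jm_zz (r s : ℝ) : Jm (zz r s) = zz (-s) r := by
  funext m
  fin_cases m <;> simp [Jm, zz]

theorem smul_zz (t r s : ℝ) : t • zz r s = zz (t * r) (t * s) := by
  funext m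
  fin_cases m <;> simp [zz]

theorem Af_mk_l (i : Fin 3) (a b c : ℝ) (z : Fin 7 → Fin 2 → ℝ) :
    Af (Fin.castAdd 7 i) (mk (Dg a b c) z)
      = mk ((cc i * ![b - c, c - a, a - b] i) • Sm i) 0 := by
  rw [Af_l, mat_mk, comm_Dg, smul_smul]

theorem Af_mk_S (i : Fin 3) (r : ℝ) (z : Fin 7 → Fin 2 → ℝ) :
    Af (Fin.castAdd 7 i) (mk (r • Sm i) z)
      = mk (Dg (cc i * r * ![0, 2, -2] i) (cc i * r * ![-2, 0, 2] i)
        (cc i * r * ![2, -2, 0] i)) 0 := by
  rw [Af_l, mat_mk, Matrix.mul_smul, Matrix.smul_mul, ← smul_sub, comm_Sm, smul_smul, smul_Dg]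

theorem Af_mk_r (j : Fin 7) (M : Matrix (Fin 3) (Fin 3) ℝ) (z : Fin 7 → Fin 2 → ℝ) :
    Af (Fin.natAdd 3 j) (mk M z)
      = mk 0 (fun j' => if j' = j then √15 • Jm (z j) else 0) := by
  rw [Af_r, vec_mk]

theorem sq2 : √2 ^ 2 = (2 : ℝ) := Real.sq_sqrt (by norm_num)
theorem sq5 : √5 ^ 2 = (5 : ℝ) := Real.sq_sqrt (by norm_num)
theorem sq15 : √15 ^ 2 = (15 : ℝ) := Real.sq_sqrt (by norm_num)

/-- the base point -/
def c0 : E0 := mk (Dg (-(√2 / 3)) (√2 * (5 + 3 * √5) / 30) (√2 * (5 - 3 * √5) / 30))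
  (fun _ => zz (1 / √15) 0)

theorem Af_c0_l (i : Fin 3) : Af (Fin.castAdd 7 i) c0 = mk ((√2 / 2) • Sm i) 0 := by
  rw [c0, Af_mk_l]
  congr 2
  have h5 := sq5
  fin_cases i
  · simp [cc]
    linear_combination (√2 / 10) * h5
  · simp [cc]
    linear_combination (-√2 / 40) * h5
  · simp [cc]
    linear_combination (-√2 / 40) * h5

theorem Af_c0_r (j : Fin 7) :
    Af (Fin.natAdd 3 j) c0 = mk 0 (fun j' => if j' = j then zz 0 1 else 0) := by
  rw [c0, Af_mk_r, Jm_zz, smul_zz]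
  have h15 : √15 * (1 / √15) = 1 := by
    have : √15 ≠ 0 := by positivity
    field_simp
  rw [h15, neg_zero, mul_zero]

theorem Af_Af_c0_l (i : Fin 3) :
    Af (Fin.castAdd 7 i) (Af (Fin.castAdd 7 i) c0)
      = mk (Dg (√2 * cc i * ![0, 1, -1] i) (√2 * cc i * ![-1, 0, 1] i)
        (√2 * cc i * ![1, -1, 0] i)) 0 := by
  rw [Af_c0_l, Af_mk_S]
  congr 2
  · fin_cases i <;> simp <;> ring
  · fin_cases i <;> simp <;> ring
  · fin_cases i <;> simp <;> ring

theorem Af_Af_c0_r (j : Fin 7) :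
    Af (Fin.natAdd 3 j) (Af (Fin.natAdd 3 j) c0)
      = mk 0 (fun j' => if j' = j then zz (-√15) 0 else 0) := by
  rw [Af_c0_r, Af_mk_r]
  simp only [if_true]
  rw [Jm_zz, smul_zz]
  simp

theorem trace_Dg_Dg (a b c a' b' c' : ℝ) :
    ((Dg a b c)ᵀ * Dg a' b' c').trace = a * a' + b * b' + c * c' := by
  simp [Dg, Matrix.trace_fin_three, Matrix.mul_apply, Fin.sum_univ_three]

/-- inner products -/
theorem norm_c0 : ‖c0‖ = 1 := by
  have h : ⟪c0, c0⟫ = 1 := by
    rw [c0, inner_mk]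
    have h15 : (1 / √15) ^ 2 = 1 / 15 := by
      rw [div_pow, sq15]; norm_num
    have h2 := sq2
    have h5 := sq5
    have h1 : ((Dg (-(√2 / 3)) (√2 * (5 + 3 * √5) / 30) (√2 * (5 - 3 * √5) / 30))ᵀ *
      (Dg (-(√2 / 3)) (√2 * (5 + 3 * √5) / 30) (√2 * (5 - 3 * √5) / 30))).trace = 8 / 15 := by
      rw [trace_Dg_Dg]
      linear_combination (1 / 9 + 50 / 900 + √5 ^ 2 * 18 / 900) * h2 + (36 / 900) * h5
    rw [h1]
    simp only [zz, Matrix.cons_val_zero, Matrix.cons_val_one, Finset.sum_const, Finset.card_univ,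
      Fintype.card_fin, mul_zero, add_zero]
    rw [← pow_two, h15]
    norm_num
  have h1 : ‖c0‖ ^ 2 = 1 := by
    rw [← real_inner_self_eq_norm_sq, h]
  nlinarith [norm_nonneg c0]

theorem trace_Sm (i j : Fin 3) (r s : ℝ) :
    ((r • Sm i)ᵀ * (s • Sm j)).trace = if i = j then 2 * r * s else 0 := by
  fin_cases i <;> fin_cases j <;>
    simp [Sm, Matrix.trace_fin_three, Matrix.mul_apply, Fin.sum_univ_three] <;> ring

theorem trace_Dg_Sm (j : Fin 3) (a b c s : ℝ) :
    ((Dg a b c)ᵀ * (s • Sm j)).trace = 0 := by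
  fin_cases j <;>
    simp [Sm, Dg, Matrix.trace_fin_three, Matrix.mul_apply, Fin.sum_univ_three]

theorem addCases_ne (i : Fin 3) (j : Fin 7) : Fin.castAdd 7 i ≠ Fin.natAdd 3 j := by
  intro h
  have := congrArg Fin.val h
  simp only [Fin.val_castAdd, Fin.val_natAdd] at this
  have := i.isLt
  omega

theorem hon (a b : Fin (3 + 7)) : ⟪Af a c0, Af b c0⟫ = if a = b then (1 : ℝ) else 0 := by
  have h2 := sq2
  induction a using Fin.addCases with
  | left i =>
    induction b using Fin.addCases with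
    | left j =>
      rw [Af_c0_l, Af_c0_l, inner_mk, trace_Sm]
      simp only [Fin.castAdd_inj, Pi.zero_apply, mul_zero, add_zero, Finset.sum_const_zero]
      by_cases h : i = j
      · simp only [h, if_true]
        linear_combination (1 / 2) * h2
      · simp only [h, if_false]
    | right j =>
      rw [Af_c0_l, Af_c0_r, inner_mk, if_neg (addCases_ne i j)]
      simp
  | right i =>
    induction b using Fin.addCases with
    | left j =>
      rw [Af_c0_l, Af_c0_r, inner_mk, if_neg (addCases_ne j i).symm]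
      simp
    | right j =>
      rw [Af_c0_r, Af_c0_r, inner_mk]
      simp only [Fin.natAdd_inj]
      by_cases h : i = j
      · subst h
        have h1 : ∀ j : Fin 7, ((if j = i then zz 0 1 else 0) 0 * (if j = i then zz 0 1 else 0) 0
            + (if j = i then zz 0 1 else 0) 1 * (if j = i then zz 0 1 else 0) 1 : ℝ)
            = if j = i then 1 else 0 := by
          intro j
          by_cases hj : j = i <;> simp [hj, zz]
        simp only [h1]
        simp
      · simp only [h, if_false]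
        simp only [Matrix.transpose_zero, Matrix.mul_zero, Matrix.trace_zero, zero_add]
        refine Finset.sum_eq_zero fun k _ => ?_
        by_cases hk : k = i
        · subst hk
          simp [h]
        · simp [hk]

theorem hgeo (a b : Fin (3 + 7)) : ⟪Af a (Af a c0), Af b c0⟫ = 0 := by
  induction a using Fin.addCases with
  | left i =>
    induction b using Fin.addCases with
    | left j =>
      rw [Af_Af_c0_l, Af_c0_l, inner_mk, trace_Dg_Sm]
      simp
    | right j =>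
      rw [Af_Af_c0_l, Af_c0_r, inner_mk]
      simp
  | right i =>
    induction b using Fin.addCases with
    | left j =>
      rw [Af_Af_c0_r, Af_c0_l, inner_mk]
      simp
    | right j =>
      rw [Af_Af_c0_r, Af_c0_r, inner_mk]
      simp only [Matrix.transpose_zero, Matrix.mul_zero, Matrix.trace_zero, zero_add]
      refine Finset.sum_eq_zero fun k _ => ?_
      by_cases hk : k = i <;> by_cases hk' : k = j <;> simp [hk, hk', zz] <;> split_ifs <;> simp

/-- The codomain. -/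
abbrev E : Type := EuclideanSpace ℝ (Fin 23)

def idx : Ix ≃ Fin 23 := Fintype.equivFinOfCardEq (by simp [Ix])

def Jiso : E0 ≃ₗᵢ[ℝ] E := LinearIsometryEquiv.piLpCongrLeft 2 ℝ ℝ idx

/-- The example immersion. -/
def phi (x : Fin (3 + 7) → ℝ) : E := Jiso (Riso x c0)

def homFrame : HomFrame phi E0 where
  W := Wf
  hW := contDiff_Wf
  R := fun x => Jiso.toLinearIsometry.comp (Riso x)
  hR := by
    intro v
    exact Jiso.contDiff.comp (contDiff_R v)
  A := Af
  hRA := by
    intro a x v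
    have h : (fun y => (Jiso.toLinearIsometry.comp (Riso y)) v)
        = Jiso.toContinuousLinearEquiv ∘ (fun y => Riso y v) := rfl
    rw [h, ContinuousLinearEquiv.comp_fderiv]
    change Jiso (fderiv ℝ (fun y => Riso y v) x (Wf a x)) = Jiso (Riso x (Af a v))
    rw [fderiv_R]
  c0 := c0
  hφ := fun _ => rfl
  hc0 := norm_c0
  hon := hon
  hgeo := hgeo

theorem t0_eq : homFrame.t0
    = mk (Dg (-(5 / 6) * √2) (√2 * (5 / 12 + 3 / 4 * √5)) (√2 * (5 / 12 - 3 / 4 * √5)))
      (fun _ => zz (-5 / √15) 0) := by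
  have h : homFrame.t0 = ∑ a : Fin (3 + 7), (Af a (Af a c0) + c0) := rfl
  rw [h, Fin.sum_univ_add]
  simp only [Af_Af_c0_l, Af_Af_c0_r]
  rw [c0]
  simp only [mk_add, mk_sum]
  congr 1
  · simp only [Fin.sum_univ_three, Dg_add, Finset.sum_const, Finset.card_univ, Fintype.card_fin,
      zero_add]
    rw [← Nat.cast_smul_eq_nsmul ℝ, smul_Dg, Dg_add]
    congr 1
    · simp [cc]; ring
    · simp [cc]; ring
    · simp [cc]; ring
  · funext j m
    have h15 : √15 ≠ 0 := by positivity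
    have h15' := sq15
    simp only [Pi.add_apply, Finset.sum_apply, Fin.sum_univ_three, Pi.zero_apply, ite_apply]
    rw [Finset.sum_add_distrib]
    fin_cases m
    · simp [zz]
      field_simp
      linarith
    · simp [zz]

def kap (a : Fin (3 + 7)) : ℝ :=
  Fin.addCases (motive := fun _ => ℝ)
    (fun i => ![-(15 / 2), -(5 / 4 * (1 - √5)), -(5 / 4 * (1 + √5))] i) (fun _ => 5) a

theorem kap_l (i : Fin 3) : kap (Fin.castAdd 7 i)
    = ![-(15 / 2), -(5 / 4 * (1 - √5)), -(5 / 4 * (1 + √5))] i := by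
  simp only [kap, Fin.addCases_left]

theorem kap_r (j : Fin 7) : kap (Fin.natAdd 3 j) = 5 := by
  simp only [kap, Fin.addCases_right]

theorem hκ (a : Fin (3 + 7)) : homFrame.A a homFrame.t0 = (-kap a) • homFrame.A a homFrame.c0 := by
  change Af a homFrame.t0 = (-kap a) • Af a c0
  rw [t0_eq]
  have h5 := sq5
  induction a using Fin.addCases with
  | left i =>
    rw [Af_mk_l, Af_c0_l, smul_mk, smul_smul, kap_l]
    congr 1
    · congr 1
      fin_cases i
      · simp [cc]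
        linear_combination (3 / 4 * √2) * h5
      · simp [cc]
        linear_combination (-3 / 16 * √2) * h5
      · simp [cc]
        linear_combination (-3 / 16 * √2) * h5
    · simp
  | right j =>
    rw [Af_mk_r, Af_c0_r, smul_mk, kap_r]
    congr 1
    · simp
    · funext j'
      have h15 : √15 ≠ 0 := by positivity
      by_cases h : j' = j
      · simp only [h, if_true, Pi.smul_apply]
        rw [Jm_zz, smul_zz, smul_zz]
        congr 1
        · simp
        · field_simp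
      · simp [h]

theorem norm_t0 : ‖homFrame.t0‖ ^ 2 = 25 := by
  rw [← real_inner_self_eq_norm_sq, t0_eq, inner_mk]
  have h15 : (-5 / √15) ^ 2 = 25 / 15 := by
    rw [div_pow, sq15]; norm_num
  have h2 := sq2
  have h5 := sq5
  have h1 : ((Dg (-(5 / 6) * √2) (√2 * (5 / 12 + 3 / 4 * √5)) (√2 * (5 / 12 - 3 / 4 * √5)))ᵀ *
    (Dg (-(5 / 6) * √2) (√2 * (5 / 12 + 3 / 4 * √5)) (√2 * (5 / 12 - 3 / 4 * √5)))).trace
      = 40 / 3 := by
    rw [trace_Dg_Dg]
    linear_combination (25 / 36 + 50 / 144 + 9 / 8 * √5 ^ 2) * h2 + (9 / 4) * h5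
  rw [h1]
  simp only [zz, Matrix.cons_val_zero, Matrix.cons_val_one, Finset.sum_const, Finset.card_univ,
    Fintype.card_fin, mul_zero, add_zero]
  rw [← pow_two, h15]
  norm_num

theorem t0_ne : homFrame.t0 ≠ 0 := by
  intro h
  have := norm_t0
  rw [h] at this
  simp at this

theorem hbi : ∑ a, homFrame.A a (homFrame.A a homFrame.t0)
    = (‖homFrame.t0‖ ^ 2) • homFrame.c0 - (Fintype.card (Fin (3 + 7)) : ℝ) • homFrame.t0 := by
  rw [norm_t0, t0_eq]
  change ∑ a, Af a (Af a _) = (25 : ℝ) • c0 - _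
  have h5 := sq5
  have h15' := sq15
  have h15 : √15 ≠ 0 := by positivity
  have hl : ∀ i : Fin 3, Af (Fin.castAdd 7 i) (Af (Fin.castAdd 7 i)
      (mk (Dg (-(5 / 6) * √2) (√2 * (5 / 12 + 3 / 4 * √5)) (√2 * (5 / 12 - 3 / 4 * √5)))
      (fun _ => zz (-5 / √15) 0)))
      = mk (Dg (-kap (Fin.castAdd 7 i) * (√2 * cc i * ![0, 1, -1] i))
        (-kap (Fin.castAdd 7 i) * (√2 * cc i * ![-1, 0, 1] i))
        (-kap (Fin.castAdd 7 i) * (√2 * cc i * ![1, -1, 0] i))) 0 := by
    intro i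
    have h1 := hκ (Fin.castAdd 7 i)
    rw [t0_eq] at h1
    change Af _ _ = _ • Af _ c0 at h1
    rw [h1, Af_c0_l, smul_mk, smul_smul, Af_mk_S]
    congr 2
    · fin_cases i <;> simp <;> ring
    · fin_cases i <;> simp <;> ring
    · fin_cases i <;> simp <;> ring
  have hr : ∀ j : Fin 7, Af (Fin.natAdd 3 j) (Af (Fin.natAdd 3 j)
      (mk (Dg (-(5 / 6) * √2) (√2 * (5 / 12 + 3 / 4 * √5)) (√2 * (5 / 12 - 3 / 4 * √5)))
      (fun _ => zz (-5 / √15) 0)))
      = mk 0 (fun j' => if j' = j then zz (5 * √15) 0 else 0) := by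
    intro j
    rw [Af_mk_r, Af_mk_r]
    congr 1
    funext j'
    by_cases h : j' = j
    · simp only [h, if_true]
      rw [Jm_zz, smul_zz, Jm_zz, smul_zz]
      congr 1
      · field_simp
      · simp
    · simp [h]
  rw [Fin.sum_univ_add]
  simp only [hl, hr]
  have hsub : ∀ (u v : E0), u - v = u + (-1 : ℝ) • v := by
    intro u v
    rw [neg_one_smul, sub_eq_add_neg]
  rw [hsub, smul_smul, c0, smul_mk, smul_mk]
  simp only [mk_add, mk_sum]
  congr 1
  · simp only [Fin.sum_univ_three, Dg_add, Finset.sum_const_zero, smul_Dg, add_zero, kap_l]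
    congr 1
    · simp [cc]
      linear_combination (-5 / 8 * √2) * h5
    · simp [cc]
      linear_combination (5 / 16 * √2) * h5
    · simp [cc]
      linear_combination (5 / 16 * √2) * h5
  · funext j m
    simp only [Pi.add_apply, Finset.sum_apply, Fin.sum_univ_three, Pi.zero_apply, ite_apply,
      Pi.smul_apply]
    fin_cases m
    · simp [zz]
      field_simp
      linarith
    · simp [zz]

theorem h012 : ⟪homFrame.A i0 (homFrame.A i1 homFrame.c0), homFrame.A i2 homFrame.c0⟫ ≠ 0 := by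
  change ⟪Af (Fin.castAdd 7 0) (Af (Fin.castAdd 7 1) c0), Af (Fin.castAdd 7 2) c0⟫ ≠ 0
  rw [Af_c0_l, Af_c0_l, Af_l, mat_mk, Matrix.mul_smul, Matrix.smul_mul, ← smul_sub, comm_01,
    smul_neg, smul_neg, smul_smul, ← neg_smul, inner_mk, trace_Sm]
  have h5 : 0 < √5 := by positivity
  have h2 := sq2
  have h1 : 2 * -(cc 0 * (√2 / 2)) * (√2 / 2) = -√5 / 2 := by
    simp [cc]
    linear_combination (-√5 / 4) * h2
  simp only [if_true, h1, Pi.zero_apply, mul_zero, add_zero, Finset.sum_const_zero]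
  intro h
  linarith

theorem kap_ne : kap i1 ≠ kap i2 := by
  have h5 : 0 < √5 := by positivity
  change kap (Fin.castAdd 7 1) ≠ kap (Fin.castAdd 7 2)
  rw [kap_l, kap_l]
  simp only [Matrix.cons_val_one, Matrix.cons_val]
  intro h
  linarith

theorem main : IsImmersionInSphere phi ∧ IsPMC phi ∧ IsProperBiharmonic phi
    ∧ ¬ HasParallelShape phi :=
  ⟨homFrame.isImmersion, homFrame.isPMC hκ, homFrame.isProperBiharmonic hκ hbi t0_ne,
    homFrame.not_parallel hκ i0 i1 i2 kap_ne h012⟩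

end Ex

end Pool.Agent.Lib.MP_4617b5_gt
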