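import Pool.Agent.Lib.MP_4617b5_gt.Defs

/-!
Moving frames: translation of the coordinate definitions to a smooth orthonormal frame.
-/

open scoped RealInnerProductSpace ContDiff

noncomputable section

namespace Pool.Agent.Lib.MP_4617b5_gt

variable {ι : Type*} [Fintype ι] [DecidableEq ι]
variable {E : Type*} [NormedAddCommGroup E] [InnerProductSpace ℝ E]
variable {F : Type*} [NormedAddCommGroup F] [NormedSpace ℝ F]

theorem fderiv_eq_sum (f : (ι → ℝ) → F) (x w : ι → ℝ) :
    fderiv ℝ f x w = ∑ i, w i • pd i f x := by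
  have hw : w = ∑ i, w i • (Pi.single i (1 : ℝ) : ι → ℝ) := by
    ext j
    simp [Finset.sum_apply, Pi.single_apply]
  conv_lhs => rw [hw]
  rw [map_sum]
  refine Finset.sum_congr rfl fun i _ => ?_
  rw [map_smul, pd]

theorem contDiff_pd {f : (ι → ℝ) → F} (hf : ContDiff ℝ ∞ f) (i : ι) : ContDiff ℝ ∞ (pd i f) := by
  unfold pd
  exact (hf.fderiv_right (m := ∞) (by simp)).clm_apply contDiff_const

theorem pd_eq_snd {f : (ι → ℝ) → F} (hf : ContDiff ℝ ∞ f) (i j : ι) (x : ι → ℝ) :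
    pd i (pd j f) x = fderiv ℝ (fderiv ℝ f) x (Pi.single i 1) (Pi.single j 1) := by
  unfold pd
  have h1 : DifferentiableAt ℝ (fderiv ℝ f) x :=
    ((hf.fderiv_right (m := ∞) (by simp)).differentiable (by simp)) x
  rw [fderiv_clm_apply h1 (differentiableAt_const _)]
  simp

theorem pd_comm {f : (ι → ℝ) → F} (hf : ContDiff ℝ ∞ f) (i j : ι) (x : ι → ℝ) :
    pd i (pd j f) x = pd j (pd i f) x := by
  rw [pd_eq_snd hf, pd_eq_snd hf]
  have : IsSymmSndFDerivAt ℝ f x := (contDiff_infty.1 hf 2).contDiffAt.isSymmSndFDerivAt (by simp)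
  exact this _ _

theorem pd_inner {f g : (ι → ℝ) → E} {x : ι → ℝ} (hf : DifferentiableAt ℝ f x)
    (hg : DifferentiableAt ℝ g x) (i : ι) :
    pd i (fun y => ⟪f y, g y⟫) x = ⟪pd i f x, g x⟫ + ⟪f x, pd i g x⟫ := by
  unfold pd
  rw [fderiv_inner_apply ℝ hf hg]
  ring

theorem christoffel_eq {φ : (ι → ℝ) → E} (hφ : ContDiff ℝ ∞ φ) (x : ι → ℝ) (k i j : ι) :
    christoffel φ x k i j = ∑ l, invMetric φ x k l * ⟪pd i (pd j φ) x, pd l φ x⟫ := by
  unfold christoffel
  have hd : ∀ p, DifferentiableAt ℝ (pd p φ) x := fun p =>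
    ((contDiff_pd hφ p).differentiable (by simp)) x
  rw [Finset.mul_sum]
  refine Finset.sum_congr rfl fun l _ => ?_
  have h1 : ∀ p q r, pd p (fun y => metric φ y q r) x
      = ⟪pd p (pd q φ) x, pd r φ x⟫ + ⟪pd q φ x, pd p (pd r φ) x⟫ := by
    intro p q r
    simp only [metric, Matrix.of_apply]
    exact pd_inner (hd q) (hd r) p
  rw [h1, h1, h1, pd_comm hφ j i, pd_comm hφ l i, pd_comm hφ l j]
  rw [real_inner_comm (pd j (pd l φ) x) (pd i φ x), real_inner_comm (pd i (pd l φ) x) (pd j φ x)]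
  ring

/-- Data of a smooth orthonormal frame. -/
structure Frame (φ : (ι → ℝ) → E) where
  smooth : ContDiff ℝ ∞ φ
  W : ι → (ι → ℝ) → (ι → ℝ)
  hW : ∀ a, ContDiff ℝ ∞ (W a)
  hon : ∀ x a b, ⟪fderiv ℝ φ x (W a x), fderiv ℝ φ x (W b x)⟫ = if a = b then (1 : ℝ) else 0

namespace Frame

variable {φ : (ι → ℝ) → E} (S : Frame φ)

/-- The frame pushed forward to `E`. -/
def e (a : ι) (x : ι → ℝ) : E := fderiv ℝ φ x (S.W a x)

theorem e_eq (a : ι) (x : ι → ℝ) : S.e a x = ∑ i, S.W a x i • pd i φ x := fderiv_eq_sum _ _ _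

/-- Matrix of the frame. -/
def Wm (x : ι → ℝ) : Matrix ι ι ℝ := Matrix.of fun a i => S.W a x i

/-- coefficients of coordinate fields in the frame -/
def Vm (x : ι → ℝ) : Matrix ι ι ℝ := Matrix.of fun i a => ⟪pd i φ x, S.e a x⟫

theorem Wm_mul_Vm (x : ι → ℝ) : S.Wm x * S.Vm x = 1 := by
  ext a b
  rw [Matrix.mul_apply, Matrix.one_apply]
  simp only [Wm, Vm, Matrix.of_apply]
  rw [← S.hon x a b]
  change _ = ⟪S.e a x, S.e b x⟫
  rw [S.e_eq a, sum_inner]
  refine Finset.sum_congr rfl fun i _ => ?_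
  rw [real_inner_smul_left]

theorem Vm_mul_Wm (x : ι → ℝ) : S.Vm x * S.Wm x = 1 :=
  mul_eq_one_comm.1 (S.Wm_mul_Vm x)

theorem Vm_eq (x : ι → ℝ) : S.Vm x = metric φ x * (S.Wm x).transpose := by
  ext i a
  simp only [Vm, Matrix.of_apply, Matrix.mul_apply, Wm, metric, Matrix.transpose_apply]
  rw [S.e_eq, inner_sum]
  refine Finset.sum_congr rfl fun j _ => ?_
  rw [real_inner_smul_right, mul_comm]

theorem invMetric_eq' (x : ι → ℝ) : invMetric φ x = (S.Wm x).transpose * S.Wm x := by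
  unfold invMetric
  apply Matrix.inv_eq_right_inv
  rw [← Matrix.mul_assoc, ← S.Vm_eq, S.Vm_mul_Wm]

theorem invMetric_eq (x : ι → ℝ) (k l : ι) :
    invMetric φ x k l = ∑ a, S.W a x k * S.W a x l := by
  rw [S.invMetric_eq', Matrix.mul_apply]
  rfl

theorem sum_VW (x : ι → ℝ) (i k : ι) :
    ∑ a, ⟪pd i φ x, S.e a x⟫ * S.W a x k = if i = k then 1 else 0 := by
  have := congrFun (congrFun (S.Vm_mul_Wm x) i) k
  rw [Matrix.mul_apply, Matrix.one_apply] at this
  exact this

theorem sum_WV (x : ι → ℝ) (a b : ι) :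
    ∑ i, S.W a x i * ⟪pd i φ x, S.e b x⟫ = if a = b then 1 else 0 := by
  have := congrFun (congrFun (S.Wm_mul_Vm x) a) b
  rw [Matrix.mul_apply, Matrix.one_apply] at this
  exact this

theorem pd_eq (f : (ι → ℝ) → F) (i : ι) (x : ι → ℝ) :
    pd i f x = ∑ a, ⟪pd i φ x, S.e a x⟫ • fderiv ℝ f x (S.W a x) := by
  have h : (Pi.single i (1 : ℝ) : ι → ℝ) = ∑ a, ⟪pd i φ x, S.e a x⟫ • S.W a x := by
    ext k
    rw [Finset.sum_apply]
    simp only [Pi.smul_apply, smul_eq_mul]
    rw [S.sum_VW, Pi.single_apply]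
    simp only [eq_comm]
  rw [pd]
  conv_lhs => rw [h]
  rw [map_sum]
  simp only [map_smul]

theorem tanProj_eq (x : ι → ℝ) (v : E) :
    tanProj φ x v = ∑ a, ⟪v, S.e a x⟫ • S.e a x := by
  unfold tanProj
  have h1 : ∀ k l, (invMetric φ x k l * ⟪v, pd l φ x⟫) • pd k φ x
      = ∑ a, (S.W a x l * ⟪v, pd l φ x⟫) • (S.W a x k • pd k φ x) := by
    intro k l
    rw [S.invMetric_eq, Finset.sum_mul, Finset.sum_smul]
    refine Finset.sum_congr rfl fun a _ => ?_
    rw [smul_smul]
    congr 1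
    ring
  simp only [h1]
  rw [Finset.sum_congr rfl fun k _ => Finset.sum_comm]
  rw [Finset.sum_comm]
  refine Finset.sum_congr rfl fun a _ => ?_
  simp only [← Finset.sum_smul]
  rw [← Finset.smul_sum, ← S.e_eq]
  congr 1
  rw [S.e_eq, inner_sum]
  refine Finset.sum_congr rfl fun l _ => ?_
  rw [real_inner_smul_right]

theorem tanProj_e (x : ι → ℝ) (b : ι) : tanProj φ x (S.e b x) = S.e b x := by
  rw [S.tanProj_eq]
  have : ∀ a, ⟪S.e b x, S.e a x⟫ = if b = a then (1 : ℝ) else 0 := fun a => S.hon x b a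
  simp only [this]
  simp

include S in
theorem tanProj_add (x : ι → ℝ) (u v : E) :
    tanProj φ x (u + v) = tanProj φ x u + tanProj φ x v := by
  simp only [S.tanProj_eq, inner_add_left, add_smul, Finset.sum_add_distrib]

include S in
theorem tanProj_smul (x : ι → ℝ) (c : ℝ) (v : E) :
    tanProj φ x (c • v) = c • tanProj φ x v := by
  simp only [S.tanProj_eq, real_inner_smul_left, mul_smul, Finset.smul_sum]

include S in
theorem tanProj_neg (x : ι → ℝ) (v : E) : tanProj φ x (-v) = -tanProj φ x v := by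
  have := S.tanProj_smul x (-1) v
  simpa using this

include S in
theorem tanProj_sub (x : ι → ℝ) (u v : E) :
    tanProj φ x (u - v) = tanProj φ x u - tanProj φ x v := by
  rw [sub_eq_add_neg, S.tanProj_add, S.tanProj_neg, ← sub_eq_add_neg]

include S in
theorem tanProj_sum {α : Type*} (s : Finset α) (x : ι → ℝ) (u : α → E) :
    tanProj φ x (∑ a ∈ s, u a) = ∑ a ∈ s, tanProj φ x (u a) := by
  classical
  induction s using Finset.induction_on with
  | empty => simp [S.tanProj_eq]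
  | insert a s ha ih => rw [Finset.sum_insert ha, Finset.sum_insert ha, S.tanProj_add, ih]

include S in
theorem tanProj_pd (x : ι → ℝ) (i : ι) : tanProj φ x (pd i φ x) = pd i φ x := by
  rw [S.pd_eq φ i x, S.tanProj_sum]
  refine Finset.sum_congr rfl fun a _ => ?_
  rw [S.tanProj_smul]
  congr 1
  exact S.tanProj_e x a

include S in
theorem tanProj_fderiv (x w : ι → ℝ) : tanProj φ x (fderiv ℝ φ x w) = fderiv ℝ φ x w := by
  rw [fderiv_eq_sum, S.tanProj_sum]
  refine Finset.sum_congr rfl fun a _ => ?_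
  rw [S.tanProj_smul, S.tanProj_pd]

theorem inner_tanProj_e (x : ι → ℝ) (v : E) (c : ι) : ⟪tanProj φ x v, S.e c x⟫ = ⟪v, S.e c x⟫ := by
  rw [S.tanProj_eq, sum_inner]
  have : ∀ a, ⟪S.e a x, S.e c x⟫ = if a = c then (1 : ℝ) else 0 := fun a => S.hon x a c
  simp only [real_inner_smul_left, this]
  simp

include S in
theorem sff_eq (x : ι → ℝ) (i j : ι) :
    sff φ x i j = pd i (pd j φ) x - tanProj φ x (pd i (pd j φ) x) + metric φ x i j • φ x := by
  unfold sff
  congr 2
  unfold tanProj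
  refine Finset.sum_congr rfl fun k _ => ?_
  rw [christoffel_eq S.smooth, Finset.sum_smul]

theorem differentiableAt_W (a : ι) (x : ι → ℝ) : DifferentiableAt ℝ (S.W a) x :=
  ((S.hW a).differentiable (by simp)) x

theorem contDiff_e (a : ι) : ContDiff ℝ ∞ (S.e a) := by
  unfold e
  exact (S.smooth.fderiv_right (m := ∞) (by simp)).clm_apply (S.hW a)

theorem fderiv_e (b : ι) (x w : ι → ℝ) :
    fderiv ℝ (S.e b) x w
      = (∑ i, ∑ j, (w i * S.W b x j) • pd i (pd j φ) x)
        + fderiv ℝ φ x (fderiv ℝ (S.W b) x w) := by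
  unfold e
  have h1 : DifferentiableAt ℝ (fderiv ℝ φ) x :=
    ((S.smooth.fderiv_right (m := ∞) (by simp)).differentiable (by simp)) x
  rw [fderiv_clm_apply h1 (S.differentiableAt_W b x)]
  simp only [_root_.add_apply, ContinuousLinearMap.comp_apply,
    ContinuousLinearMap.flip_apply]
  rw [add_comm]
  congr 1
  have hexp : ∀ u : ι → ℝ, u = ∑ i, u i • (Pi.single i (1 : ℝ) : ι → ℝ) := by
    intro u
    ext j
    simp [Finset.sum_apply, Pi.single_apply]
  conv_lhs => rw [hexp w, hexp (S.W b x)]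
  simp only [map_sum, map_smul, _root_.sum_apply, _root_.smul_apply, Finset.smul_sum, smul_smul,
    pd_eq_snd S.smooth]
  rw [Finset.sum_comm]
  refine Finset.sum_congr rfl fun i _ => ?_
  refine Finset.sum_congr rfl fun j _ => ?_
  rw [mul_comm]

/-- The second fundamental form in the frame. -/
theorem sffW (x : ι → ℝ) (a b : ι) :
    (∑ i : ι, ∑ j : ι, (S.W a x i * S.W b x j) • sff φ x i j)
      = fderiv ℝ (S.e b) x (S.W a x) - tanProj φ x (fderiv ℝ (S.e b) x (S.W a x))
        + (if a = b then (1 : ℝ) else 0) • φ x := by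
  rw [S.fderiv_e b x (S.W a x), S.tanProj_add, S.tanProj_fderiv, S.tanProj_sum]
  have hs : ∀ u : ι → E, tanProj φ x (∑ a, u a) = ∑ a, tanProj φ x (u a) :=
    fun u => S.tanProj_sum Finset.univ x u
  simp only [hs, S.tanProj_smul, S.sff_eq, smul_add, smul_sub]
  simp only [Finset.sum_add_distrib, Finset.sum_sub_distrib]
  have h2 : (∑ i : ι, ∑ j : ι, (S.W a x i * S.W b x j) • metric φ x i j • φ x)
      = (if a = b then (1 : ℝ) else 0) • φ x := by
    rw [← S.hon x a b]
    change _ = ⟪S.e a x, S.e b x⟫ • φ x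
    rw [S.e_eq a, S.e_eq b, sum_inner]
    simp only [inner_sum, real_inner_smul_left, real_inner_smul_right]
    simp only [Finset.sum_smul]
    refine Finset.sum_congr rfl fun i _ => ?_
    refine Finset.sum_congr rfl fun j _ => ?_
    rw [smul_smul]
    congr 1
    simp only [metric, Matrix.of_apply]
    ring
  rw [h2]
  abel

theorem tension_eq (x : ι → ℝ) :
    tension φ x = ∑ a, (fderiv ℝ (S.e a) x (S.W a x)
      - tanProj φ x (fderiv ℝ (S.e a) x (S.W a x)) + φ x) := by
  unfold tension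
  have h : ∀ a, fderiv ℝ (S.e a) x (S.W a x)
      - tanProj φ x (fderiv ℝ (S.e a) x (S.W a x)) + φ x
      = ∑ i, ∑ j, (S.W a x i * S.W a x j) • sff φ x i j := by
    intro a
    rw [S.sffW x a a]
    simp
  simp only [h]
  symm
  rw [Finset.sum_comm]
  refine Finset.sum_congr rfl fun i _ => ?_
  rw [Finset.sum_comm]
  refine Finset.sum_congr rfl fun j _ => ?_
  rw [S.invMetric_eq, Finset.sum_smul]

theorem inner_pd (x : ι → ℝ) (i : ι) (v : E) :
    ⟪v, pd i φ x⟫ = ∑ c, ⟪pd i φ x, S.e c x⟫ * ⟪v, S.e c x⟫ := by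
  conv_lhs => rw [S.pd_eq φ i x]
  rw [inner_sum]
  refine Finset.sum_congr rfl fun c _ => ?_
  rw [real_inner_smul_right]
  rfl

theorem sum_inv_inner (x : ι → ℝ) (k : ι) (v : E) :
    ∑ l, invMetric φ x k l * ⟪v, pd l φ x⟫ = ∑ c, ⟪v, S.e c x⟫ * S.W c x k := by
  have h : ∀ c, ⟪v, S.e c x⟫ * S.W c x k
      = ∑ l, (S.W c x k * S.W c x l) * ⟪v, pd l φ x⟫ := by
    intro c
    rw [S.e_eq, inner_sum, Finset.sum_mul]
    refine Finset.sum_congr rfl fun l _ => ?_
    rw [real_inner_smul_right]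
    ring
  simp only [h]
  rw [Finset.sum_comm]
  refine Finset.sum_congr rfl fun l _ => ?_
  rw [S.invMetric_eq, Finset.sum_mul]

theorem sum_fderiv_W (x u : ι → ℝ) (k : ι) :
    ∑ c, ⟪fderiv ℝ φ x u, S.e c x⟫ * S.W c x k = u k := by
  have h : ∀ c, ⟪fderiv ℝ φ x u, S.e c x⟫ * S.W c x k
      = ∑ i, u i * (⟪pd i φ x, S.e c x⟫ * S.W c x k) := by
    intro c
    rw [fderiv_eq_sum, sum_inner, Finset.sum_mul]
    refine Finset.sum_congr rfl fun i _ => ?_
    rw [real_inner_smul_left]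
    ring
  simp only [h]
  rw [Finset.sum_comm]
  simp only [← Finset.mul_sum, S.sum_VW]
  simp

/-- The Levi-Civita connection in the frame. -/
theorem conn (x : ι → ℝ) (k a b : ι) :
    (∑ i, ∑ j, S.W a x i * S.W b x j * christoffel φ x k i j)
      + fderiv ℝ (S.W b) x (S.W a x) k
      = ∑ c, ⟪fderiv ℝ (S.e b) x (S.W a x), S.e c x⟫ * S.W c x k := by
  have h1 : (∑ i, ∑ j, S.W a x i * S.W b x j * christoffel φ x k i j)
      = ∑ l, invMetric φ x k l *
        ⟪∑ i, ∑ j, (S.W a x i * S.W b x j) • pd i (pd j φ) x, pd l φ x⟫ := by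
    simp only [christoffel_eq S.smooth, sum_inner, Finset.mul_sum, real_inner_smul_left]
    rw [Finset.sum_congr rfl fun i _ => Finset.sum_comm]
    rw [Finset.sum_comm]
    refine Finset.sum_congr rfl fun l _ => ?_
    refine Finset.sum_congr rfl fun i _ => ?_
    refine Finset.sum_congr rfl fun j _ => ?_
    ring
  rw [h1, S.sum_inv_inner]
  have h2 := S.fderiv_e b x (S.W a x)
  rw [h2]
  simp only [inner_add_left, add_mul, Finset.sum_add_distrib]
  rw [S.sum_fderiv_W]

/-- Covariant derivative (in the sphere) of a field along `φ` in direction of the frame. -/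
def covW (a : ι) (η : (ι → ℝ) → E) (x : ι → ℝ) : E :=
  fderiv ℝ η x (S.W a x) - ⟪fderiv ℝ η x (S.W a x), φ x⟫ • φ x

theorem covW_eq (a : ι) (η : (ι → ℝ) → E) (x : ι → ℝ) :
    S.covW a η x = ∑ j, S.W a x j • covSphere φ j η x := by
  unfold covW covSphere
  rw [fderiv_eq_sum η]
  simp only [sum_inner, Finset.sum_smul, smul_sub, Finset.sum_sub_distrib, real_inner_smul_left,
    smul_smul]

theorem contDiff_covSphere {η : (ι → ℝ) → E} (hφ : ContDiff ℝ ∞ φ) (hη : ContDiff ℝ ∞ η) (j : ι) :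
    ContDiff ℝ ∞ (covSphere φ j η) := by
  unfold covSphere
  exact (contDiff_pd hη j).sub (((contDiff_pd hη j).inner ℝ hφ).smul hφ)

omit [Fintype ι] in
theorem inner_covSphere (hn : ∀ x, ‖φ x‖ = 1) (η : (ι → ℝ) → E) (j : ι) (x : ι → ℝ) :
    ⟪covSphere φ j η x, φ x⟫ = 0 := by
  unfold covSphere
  rw [inner_sub_left, real_inner_smul_left, real_inner_self_eq_norm_sq, hn]
  ring

theorem cov_cov (hn : ∀ x, ‖φ x‖ = 1) {ξ : (ι → ℝ) → E} (hξ : ContDiff ℝ ∞ ξ) (a b : ι)
    (x : ι → ℝ) :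
    (∑ i, ∑ j, (S.W a x i * S.W b x j) • covSphere φ i (covSphere φ j ξ) x)
      = S.covW a (S.covW b ξ) x
        - ∑ j, (fderiv ℝ (S.W b) x (S.W a x) j) • covSphere φ j ξ x := by
  have h1 : (∑ i, ∑ j, (S.W a x i * S.W b x j) • covSphere φ i (covSphere φ j ξ) x)
      = ∑ j, S.W b x j • S.covW a (covSphere φ j ξ) x := by
    rw [Finset.sum_comm]
    refine Finset.sum_congr rfl fun j _ => ?_
    rw [S.covW_eq, Finset.smul_sum]
    refine Finset.sum_congr rfl fun i _ => ?_
    rw [smul_smul, mul_comm]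
  rw [h1]
  have hF : ∀ j, DifferentiableAt ℝ (covSphere φ j ξ) x := fun j =>
    ((contDiff_covSphere S.smooth hξ j).differentiable (by simp)) x
  have hWj : ∀ j, DifferentiableAt ℝ (fun y => S.W b y j) x := fun j =>
    differentiableAt_pi.1 (S.differentiableAt_W b x) j
  have hWd : ∀ j, fderiv ℝ (fun y => S.W b y j) x (S.W a x) = fderiv ℝ (S.W b) x (S.W a x) j := by
    intro j
    rw [fderiv_pi hWj] 
    rfl
  have h2 : fderiv ℝ (S.covW b ξ) x (S.W a x)
      = ∑ j, (fderiv ℝ (S.W b) x (S.W a x) j) • covSphere φ j ξ x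
        + ∑ j, S.W b x j • fderiv ℝ (covSphere φ j ξ) x (S.W a x) := by
    have : S.covW b ξ = fun y => ∑ j, S.W b y j • covSphere φ j ξ y := by
      funext y
      exact S.covW_eq b ξ y
    rw [this, fderiv_fun_sum (fun j _ => (hWj j).fun_smul (hF j)), _root_.sum_apply,
      ← Finset.sum_add_distrib]
    refine Finset.sum_congr rfl fun j _ => ?_
    rw [fderiv_fun_smul (hWj j) (hF j), ← hWd]
    simp [add_comm]
  have h3 : S.covW a (S.covW b ξ) x = fderiv ℝ (S.covW b ξ) x (S.W a x)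
      - ⟪fderiv ℝ (S.covW b ξ) x (S.W a x), φ x⟫ • φ x := rfl
  rw [h3, h2]
  have h4 : ⟪∑ j, (fderiv ℝ (S.W b) x (S.W a x) j) • covSphere φ j ξ x, φ x⟫ = 0 := by
    rw [sum_inner]
    refine Finset.sum_eq_zero fun j _ => ?_
    rw [real_inner_smul_left, inner_covSphere hn]
    ring
  rw [inner_add_left, h4, zero_add, sum_inner, Finset.sum_smul]
  have h5 : ∀ j, S.W b x j • S.covW a (covSphere φ j ξ) x
      = S.W b x j • fderiv ℝ (covSphere φ j ξ) x (S.W a x)
        - ⟪S.W b x j • fderiv ℝ (covSphere φ j ξ) x (S.W a x), φ x⟫ • φ x := by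
    intro j
    unfold covW
    rw [smul_sub, real_inner_smul_left, smul_smul]
  simp only [h5, Finset.sum_sub_distrib]
  abel

/-- The rough Laplacian in the frame. -/
theorem roughLap_eq (hn : ∀ x, ‖φ x‖ = 1) {ξ : (ι → ℝ) → E} (hξ : ContDiff ℝ ∞ ξ)
    (x : ι → ℝ) (hgeo : ∀ a c, ⟪fderiv ℝ (S.e a) x (S.W a x), S.e c x⟫ = 0) :
    roughLap φ ξ x = - ∑ a, S.covW a (S.covW a ξ) x := by
  unfold roughLap
  congr 1
  have h1 : ∀ i j, invMetric φ x i j •
      (covSphere φ i (covSphere φ j ξ) x - ∑ k, christoffel φ x k i j • covSphere φ k ξ x)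
      = ∑ a, ((S.W a x i * S.W a x j) • covSphere φ i (covSphere φ j ξ) x
        - ∑ k, (S.W a x i * S.W a x j * christoffel φ x k i j) • covSphere φ k ξ x) := by
    intro i j
    rw [S.invMetric_eq, Finset.sum_smul]
    refine Finset.sum_congr rfl fun a _ => ?_
    rw [smul_sub, Finset.smul_sum]
    congr 1
    refine Finset.sum_congr rfl fun k _ => ?_
    rw [smul_smul]
  simp only [h1]
  have h2 : ∀ G : ι → ι → ι → E, (∑ i, ∑ j, ∑ a, G i j a) = ∑ a, ∑ i, ∑ j, G i j a := by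
    intro G
    rw [Finset.sum_congr rfl fun i _ => Finset.sum_comm]
    rw [Finset.sum_comm]
  rw [h2]
  refine Finset.sum_congr rfl fun a _ => ?_
  simp only [Finset.sum_sub_distrib]
  rw [S.cov_cov hn hξ, h2]
  have h3 : (∑ k, ∑ i, ∑ j, (S.W a x i * S.W a x j * christoffel φ x k i j) • covSphere φ k ξ x)
      = - ∑ j, (fderiv ℝ (S.W a) x (S.W a x) j) • covSphere φ j ξ x := by
    rw [← Finset.sum_neg_distrib]
    refine Finset.sum_congr rfl fun k _ => ?_
    simp only [← Finset.sum_smul]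
    rw [← neg_smul]
    congr 1
    have h4 := S.conn x k a a
    simp only [hgeo, zero_mul, Finset.sum_const_zero] at h4
    linarith
  rw [h3]
  abel

theorem shapeOp_W {ξ : (ι → ℝ) → E} {μ : ι → ℝ} (x : ι → ℝ)
    (hμ : ∀ a b, ⟪∑ i, ∑ j, (S.W a x i * S.W b x j) • sff φ x i j, ξ x⟫ = if a = b then μ a else 0)
    (k b : ι) : ∑ i, shapeOp φ ξ x k i * S.W b x i = μ b * S.W b x k := by
  have h1 : ∀ i, shapeOp φ ξ x k i * S.W b x i
      = ∑ j, ∑ c, S.W c x k * (S.W b x i * S.W c x j * ⟪sff φ x i j, ξ x⟫) := by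
    intro i
    unfold shapeOp
    rw [Finset.sum_mul]
    refine Finset.sum_congr rfl fun j _ => ?_
    rw [S.invMetric_eq, Finset.sum_mul, Finset.sum_mul]
    refine Finset.sum_congr rfl fun c _ => ?_
    ring
  simp only [h1]
  rw [Finset.sum_congr rfl fun i _ => Finset.sum_comm]
  rw [Finset.sum_comm]
  have h2 : ∀ c, (∑ i, ∑ j, S.W c x k * (S.W b x i * S.W c x j * ⟪sff φ x i j, ξ x⟫))
      = S.W c x k * (if b = c then μ b else 0) := by
    intro c
    rw [← hμ b c]
    simp only [sum_inner, real_inner_smul_left, Finset.mul_sum]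
  simp only [h2]
  simp [mul_comm]

theorem shapeOp_eq {ξ : (ι → ℝ) → E} {μ : ι → ℝ} (x : ι → ℝ)
    (hμ : ∀ a b, ⟪∑ i, ∑ j, (S.W a x i * S.W b x j) • sff φ x i j, ξ x⟫ = if a = b then μ a else 0)
    (k i : ι) : shapeOp φ ξ x k i = ∑ a, μ a * S.W a x k * ⟪pd i φ x, S.e a x⟫ := by
  have h1 : shapeOp φ ξ x k i
      = ∑ p, shapeOp φ ξ x k p * ∑ a, ⟪pd i φ x, S.e a x⟫ * S.W a x p := by
    simp [S.sum_VW]
  rw [h1]
  simp only [Finset.mul_sum]
  rw [Finset.sum_comm]
  refine Finset.sum_congr rfl fun a _ => ?_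
  rw [← S.shapeOp_W x hμ k a, Finset.sum_mul]
  refine Finset.sum_congr rfl fun p _ => ?_
  ring

/-- Non-parallelity of the shape operator. -/
theorem not_parallel {ξ : (ι → ℝ) → E} {μ : ι → ℝ}
    (hμ : ∀ x a b, ⟪∑ i, ∑ j, (S.W a x i * S.W b x j) • sff φ x i j, ξ x⟫
      = if a = b then μ a else 0)
    (x : ι → ℝ) (hpar : ∀ l k i, covTensor φ (shapeOp φ ξ) x l k i = 0) (a b d : ι) :
    ⟪fderiv ℝ (S.e b) x (S.W a x), S.e d x⟫ * (μ b - μ d) = 0 := by
  have hWj : ∀ c j, DifferentiableAt ℝ (fun y => S.W c y j) x := fun c j =>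
    differentiableAt_pi.1 (S.differentiableAt_W c x) j
  have hWd : ∀ j, fderiv ℝ (fun y => S.W b y j) x (S.W a x) = fderiv ℝ (S.W b) x (S.W a x) j := by
    intro j
    rw [fderiv_pi (hWj b)]
    rfl
  have hV : ∀ i c, DifferentiableAt ℝ (fun y => ⟪pd i φ y, S.e c y⟫) x := fun i c =>
    (((contDiff_pd S.smooth i).inner ℝ (S.contDiff_e c)).differentiable (by simp)) x
  have hsh : ∀ k i, DifferentiableAt ℝ (fun y => shapeOp φ ξ y k i) x := by
    intro k i
    have : (fun y => shapeOp φ ξ y k i)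
        = fun y => ∑ a, μ a * S.W a y k * ⟪pd i φ y, S.e a y⟫ := by
      funext y
      exact S.shapeOp_eq y (hμ y) k i
    rw [this]
    exact DifferentiableAt.fun_sum fun c _ => ((hWj c k).const_mul _).mul (hV i c)
  -- differentiate the eigenvector equation
  have h1 : ∀ k, ∑ i, (fderiv ℝ (fun y => shapeOp φ ξ y k i) x (S.W a x) * S.W b x i
      + shapeOp φ ξ x k i * fderiv ℝ (S.W b) x (S.W a x) i)
      = μ b * fderiv ℝ (S.W b) x (S.W a x) k := by
    intro k
    have h2 : (fun y => ∑ i, shapeOp φ ξ y k i * S.W b y i) = fun y => μ b * S.W b y k := by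
      funext y
      exact S.shapeOp_W y (hμ y) k b
    have h3 := congrArg (fun f => fderiv ℝ f x (S.W a x)) h2
    rw [fderiv_fun_sum (fun i _ => (hsh k i).fun_mul (hWj b i)), _root_.sum_apply,
      fderiv_const_mul (hWj b k)] at h3
    rw [_root_.smul_apply, hWd, smul_eq_mul] at h3
    rw [← h3]
    refine Finset.sum_congr rfl fun i _ => ?_
    rw [fderiv_fun_mul (hsh k i) (hWj b i), ← hWd]
    simp [add_comm, mul_comm]
  -- the derivative of the shape operator from parallelity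
  have h4 : ∀ k i, fderiv ℝ (fun y => shapeOp φ ξ y k i) x (S.W a x)
      = - (∑ l, ∑ p, S.W a x l * christoffel φ x k l p * shapeOp φ ξ x p i)
        + ∑ l, ∑ p, S.W a x l * christoffel φ x p l i * shapeOp φ ξ x k p := by
    intro k i
    rw [fderiv_eq_sum, ← Finset.sum_neg_distrib, ← Finset.sum_add_distrib]
    refine Finset.sum_congr rfl fun l _ => ?_
    have h5 := hpar l k i
    unfold covTensor at h5
    have h6 : pd l (fun y => shapeOp φ ξ y k i) x = -(∑ p, christoffel φ x k l p * shapeOp φ ξ x p i)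
        + ∑ p, christoffel φ x p l i * shapeOp φ ξ x k p := by linarith
    rw [h6, smul_eq_mul, mul_add, mul_neg, Finset.mul_sum, Finset.mul_sum]
    simp only [mul_assoc]
  -- contract
  have h7 : ∀ k, μ b * (∑ c, ⟪fderiv ℝ (S.e b) x (S.W a x), S.e c x⟫ * S.W c x k)
      = ∑ p, shapeOp φ ξ x k p *
        (∑ c, ⟪fderiv ℝ (S.e b) x (S.W a x), S.e c x⟫ * S.W c x p) := by
    intro k
    simp only [← S.conn]
    have h8 := h1 k
    rw [Finset.sum_add_distrib] at h8
    have h9 : ∑ i, fderiv ℝ (fun y => shapeOp φ ξ y k i) x (S.W a x) * S.W b x i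
        = - (μ b * ∑ i, ∑ j, S.W a x i * S.W b x j * christoffel φ x k i j)
          + ∑ p, shapeOp φ ξ x k p * ∑ i, ∑ j, S.W a x i * S.W b x j * christoffel φ x p i j := by
      simp only [h4, add_mul, Finset.sum_add_distrib, neg_mul, Finset.sum_neg_distrib]
      congr 1
      · congr 1
        -- first term
        have : ∀ i, (∑ l, ∑ p, S.W a x l * christoffel φ x k l p * shapeOp φ ξ x p i) * S.W b x i
            = ∑ l, ∑ p, S.W a x l * christoffel φ x k l p * (shapeOp φ ξ x p i * S.W b x i) := by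
          intro i
          simp only [Finset.sum_mul, mul_assoc]
        simp only [this]
        rw [Finset.sum_comm]
        rw [Finset.sum_congr rfl fun l _ => Finset.sum_comm]
        simp only [← Finset.mul_sum, S.shapeOp_W x (hμ x)]
        rw [Finset.mul_sum]
        refine Finset.sum_congr rfl fun l _ => ?_
        rw [Finset.mul_sum]
        refine Finset.sum_congr rfl fun p _ => ?_
        ring
      · have : ∀ i, (∑ l, ∑ p, S.W a x l * christoffel φ x p l i * shapeOp φ ξ x k p) * S.W b x i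
            = ∑ l, ∑ p, shapeOp φ ξ x k p * (S.W a x l * S.W b x i * christoffel φ x p l i) := by
          intro i
          rw [Finset.sum_mul]
          refine Finset.sum_congr rfl fun l _ => ?_
          rw [Finset.sum_mul]
          refine Finset.sum_congr rfl fun p _ => ?_
          ring
        simp only [this]
        rw [Finset.sum_comm]
        rw [Finset.sum_congr rfl fun l _ => Finset.sum_comm]
        rw [Finset.sum_comm]
        simp only [Finset.mul_sum]
    rw [h9] at h8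
    simp only [mul_add, Finset.sum_add_distrib]
    linarith
  -- take the `d`-component
  have h10 : ∀ k, ∑ c, (⟪fderiv ℝ (S.e b) x (S.W a x), S.e c x⟫ * (μ b - μ c)) * S.W c x k = 0 := by
    intro k
    have h11 := h7 k
    have h12 : ∑ p, shapeOp φ ξ x k p *
        (∑ c, ⟪fderiv ℝ (S.e b) x (S.W a x), S.e c x⟫ * S.W c x p)
        = ∑ c, ⟪fderiv ℝ (S.e b) x (S.W a x), S.e c x⟫ * (μ c * S.W c x k) := by
      simp only [Finset.mul_sum]
      rw [Finset.sum_comm]
      refine Finset.sum_congr rfl fun c _ => ?_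
      rw [← S.shapeOp_W x (hμ x) k c, Finset.mul_sum]
      refine Finset.sum_congr rfl fun p _ => ?_
      ring
    rw [h12, Finset.mul_sum, ← sub_eq_zero, ← Finset.sum_sub_distrib] at h11
    rw [← h11]
    refine Finset.sum_congr rfl fun c _ => ?_
    ring
  have h13 : ∑ k, (∑ c, (⟪fderiv ℝ (S.e b) x (S.W a x), S.e c x⟫ * (μ b - μ c)) * S.W c x k)
      * ⟪pd k φ x, S.e d x⟫ = 0 := by
    simp only [h10, zero_mul, Finset.sum_const_zero]
  simp only [Finset.sum_mul] at h13
  rw [Finset.sum_comm] at h13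
  simp only [mul_assoc, ← Finset.mul_sum, S.sum_WV] at h13
  simpa using h13

end Frame

end Pool.Agent.Lib.MP_4617b5_gt
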