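import Pool.Agent.Lib.MP_4617b5_gt.Frame

/-!
Homogeneous immersions `φ = R(x) c₀` with a frame along which `R' = R A`.
-/

open scoped RealInnerProductSpace ContDiff

noncomputable section

namespace Pool.Agent.Lib.MP_4617b5_gt

variable {ι : Type*} [Fintype ι] [DecidableEq ι]
variable {E : Type*} [NormedAddCommGroup E] [InnerProductSpace ℝ E]
variable {E0 : Type*} [NormedAddCommGroup E0] [InnerProductSpace ℝ E0]

/-- Data of a homogeneous immersion. -/
structure HomFrame (φ : (ι → ℝ) → E) (E0 : Type*) [NormedAddCommGroup E0]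
    [InnerProductSpace ℝ E0] where
  W : ι → (ι → ℝ) → (ι → ℝ)
  hW : ∀ a, ContDiff ℝ ∞ (W a)
  R : (ι → ℝ) → E0 →ₗᵢ[ℝ] E
  hR : ∀ v, ContDiff ℝ ∞ (fun x => R x v)
  A : ι → E0 → E0
  hRA : ∀ a x v, fderiv ℝ (fun y => R y v) x (W a x) = R x (A a v)
  c0 : E0
  hφ : ∀ x, φ x = R x c0
  hc0 : ‖c0‖ = 1
  hon : ∀ a b, ⟪A a c0, A b c0⟫ = if a = b then (1 : ℝ) else 0
  hgeo : ∀ a b, ⟪A a (A a c0), A b c0⟫ = 0

namespace HomFrame

variable {φ : (ι → ℝ) → E} (S : HomFrame φ E0)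

include S in
theorem φ_eq : φ = fun x => S.R x S.c0 := funext S.hφ

include S in
theorem smooth : ContDiff ℝ ∞ φ := by
  rw [S.φ_eq]
  exact S.hR S.c0

theorem fderiv_φ (a : ι) (x : ι → ℝ) : fderiv ℝ φ x (S.W a x) = S.R x (S.A a S.c0) := by
  have h := S.hRA a x S.c0
  rwa [← S.φ_eq] at h

/-- The underlying orthonormal frame. -/
def toFrame : Frame φ where
  smooth := S.smooth
  W := S.W
  hW := S.hW
  hon := by
    intro x a b
    rw [S.fderiv_φ, S.fderiv_φ, LinearIsometry.inner_map_map, S.hon]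

theorem e_eq (a : ι) : S.toFrame.e a = fun x => S.R x (S.A a S.c0) := by
  funext x
  exact S.fderiv_φ a x

include S in
theorem norm_φ (x : ι → ℝ) : ‖φ x‖ = 1 := by
  rw [S.hφ, LinearIsometry.norm_map, S.hc0]

theorem fderiv_e (a b : ι) (x : ι → ℝ) :
    fderiv ℝ (S.toFrame.e b) x (S.toFrame.W a x) = S.R x (S.A a (S.A b S.c0)) := by
  rw [S.e_eq]
  exact S.hRA a x _

theorem skew (a : ι) (u v : E0) : ⟪S.A a u, v⟫ = - ⟪u, S.A a v⟫ := by
  have h1 : (fun x => ⟪S.R x u, S.R x v⟫) = fun _ => ⟪u, v⟫ := by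
    funext x
    exact LinearIsometry.inner_map_map _ _ _
  have h2 : fderiv ℝ (fun x => ⟪S.R x u, S.R x v⟫) (fun _ => 0) (S.W a (fun _ => 0)) = 0 := by
    rw [h1]
    simp
  rw [fderiv_inner_apply ℝ (((S.hR u).differentiable (by simp)) _)
    (((S.hR v).differentiable (by simp)) _), S.hRA, S.hRA, LinearIsometry.inner_map_map,
    LinearIsometry.inner_map_map] at h2
  linarith

theorem inner_c0_A (a : ι) : ⟪S.A a S.c0, S.c0⟫ = 0 := by
  have h1 := S.skew a S.c0 S.c0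
  rw [real_inner_comm (S.A a S.c0) S.c0] at h1
  linarith

theorem tanProj_R (x : ι → ℝ) (v : E0) :
    tanProj φ x (S.R x v) = S.R x (∑ a, ⟪v, S.A a S.c0⟫ • S.A a S.c0) := by
  rw [S.toFrame.tanProj_eq, map_sum]
  refine Finset.sum_congr rfl fun a _ => ?_
  rw [S.e_eq, LinearIsometry.inner_map_map, map_smul]

/-- The tension vector in the model. -/
def t0 : E0 := ∑ a, (S.A a (S.A a S.c0) + S.c0)

theorem tension_eq : tension φ = fun x => S.R x S.t0 := by
  funext x
  rw [S.toFrame.tension_eq, t0, map_sum]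
  refine Finset.sum_congr rfl fun a _ => ?_
  rw [S.fderiv_e, S.tanProj_R, map_add, S.hφ]
  simp only [S.hgeo]
  simp

theorem inner_t0_tan (a : ι) : ⟪S.t0, S.A a S.c0⟫ = 0 := by
  rw [t0, sum_inner]
  refine Finset.sum_eq_zero fun b _ => ?_
  rw [inner_add_left, S.hgeo, real_inner_comm, S.inner_c0_A]
  ring

theorem inner_t0_c0 : ⟪S.t0, S.c0⟫ = 0 := by
  rw [t0, sum_inner]
  refine Finset.sum_eq_zero fun b _ => ?_
  rw [inner_add_left, S.skew, S.hon, real_inner_self_eq_norm_sq, S.hc0]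
  simp

theorem pd_R (i : ι) (v : E0) (x : ι → ℝ) :
    pd i (fun y => S.R y v) x
      = S.R x (∑ a, ⟪pd i φ x, S.toFrame.e a x⟫ • S.A a v) := by
  rw [S.toFrame.pd_eq, map_sum]
  refine Finset.sum_congr rfl fun a _ => ?_
  rw [map_smul]
  congr 1
  exact S.hRA a x v

include S in
theorem isImmersion : IsImmersionInSphere φ := by
  refine ⟨S.smooth, S.norm_φ, fun x => ?_⟩
  rw [injective_iff_map_eq_zero]
  intro u hu
  funext k
  have h1 := S.toFrame.sum_fderiv_W x u k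
  rw [hu] at h1
  simp only [inner_zero_left, zero_mul, Finset.sum_const_zero] at h1
  exact h1.symm

theorem meanCurv_eq : meanCurv φ = fun x => S.R x ((1 / (Fintype.card ι : ℝ)) • S.t0) := by
  funext x
  rw [meanCurv, S.tension_eq, map_smul]

/-- Homogeneous PMC criterion. -/
theorem isPMC {κ : ι → ℝ} (hκ : ∀ a, S.A a S.t0 = (-κ a) • S.A a S.c0) : IsPMC φ := by
  have hlin : ∀ a (c : ℝ) v, S.A a (c • v) = c • S.A a v := by
    intro a c v
    have h1 : S.R 0 (S.A a (c • v)) = S.R 0 (c • S.A a v) := by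
      rw [← S.hRA, map_smul, ← S.hRA]
      have : (fun y => S.R y (c • v)) = fun y => c • S.R y v := by
        funext y
        rw [map_smul]
      rw [this, fderiv_fun_const_smul (((S.hR v).differentiable (by simp)) _)]
      rfl
    exact (S.R 0).injective h1
  intro x i
  have h2 : covSphere φ i (meanCurv φ) x
      = S.R x (∑ a, (⟪pd i φ x, S.toFrame.e a x⟫ * ((1 / (Fintype.card ι : ℝ)) * (-κ a)))
        • S.A a S.c0) := by
    unfold covSphere
    rw [S.meanCurv_eq, S.pd_R]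
    simp only [hlin, hκ, smul_smul]
    rw [S.hφ x, LinearIsometry.inner_map_map, sum_inner]
    simp only [real_inner_smul_left, S.inner_c0_A, mul_zero, Finset.sum_const_zero, zero_smul,
      sub_zero]
  unfold covNormal
  rw [h2, S.tanProj_R, sub_eq_zero]
  congr 1
  refine Finset.sum_congr rfl fun a _ => ?_
  rw [sum_inner]
  simp only [real_inner_smul_left, S.hon]
  simp

theorem covW_R (a : ι) (v : E0) :
    S.toFrame.covW a (fun y => S.R y v)
      = fun x => S.R x (S.A a v - ⟪S.A a v, S.c0⟫ • S.c0) := by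
  funext x
  unfold Frame.covW
  have h := S.hRA a x v
  change (fderiv ℝ (fun y => S.R y v) x) (S.W a x) - _ = _
  change _ - ⟪(fderiv ℝ (fun y => S.R y v) x) (S.W a x), φ x⟫ • φ x = _
  rw [h, S.hφ, LinearIsometry.inner_map_map, map_sub, map_smul]

include S in
theorem sum_inv_metric (x : ι → ℝ) :
    ∑ i, ∑ j, invMetric φ x i j * ⟪pd i φ x, pd j φ x⟫ = Fintype.card ι := by
  have h1 : ∀ i, ∑ j, invMetric φ x i j * ⟪pd i φ x, pd j φ x⟫
      = ∑ c, ⟪pd i φ x, S.toFrame.e c x⟫ * S.toFrame.W c x i := fun i =>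
    S.toFrame.sum_inv_inner x i (pd i φ x)
  simp only [h1, S.toFrame.sum_VW]
  simp

/-- Homogeneous biharmonicity criterion. -/
theorem bitension_eq {κ : ι → ℝ} (hκ : ∀ a, S.A a S.t0 = (-κ a) • S.A a S.c0)
    (hbi : ∑ a, S.A a (S.A a S.t0) = (‖S.t0‖ ^ 2) • S.c0 - (Fintype.card ι : ℝ) • S.t0)
    (x : ι → ℝ) : bitension φ x = 0 := by
  unfold bitension
  have hsm : ContDiff ℝ ∞ (tension φ) := by
    rw [S.tension_eq]
    exact S.hR _
  have hgeo : ∀ a c, ⟪fderiv ℝ (S.toFrame.e a) x (S.toFrame.W a x), S.toFrame.e c x⟫ = 0 := by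
    intro a c
    rw [S.fderiv_e, S.e_eq, LinearIsometry.inner_map_map, S.hgeo]
  rw [S.toFrame.roughLap_eq S.norm_φ hsm x hgeo]
  have h1 : ∀ a, S.toFrame.covW a (S.toFrame.covW a (tension φ)) x
      = S.R x (S.A a (S.A a S.t0) - ⟪S.A a (S.A a S.t0), S.c0⟫ • S.c0) := by
    intro a
    rw [S.tension_eq, S.covW_R]
    have h2 : S.A a S.t0 - ⟪S.A a S.t0, S.c0⟫ • S.c0 = S.A a S.t0 := by
      rw [hκ, real_inner_smul_left, S.inner_c0_A, mul_zero, zero_smul, sub_zero]
    rw [h2, S.covW_R]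
  simp only [h1]
  rw [← map_sum, Finset.sum_sub_distrib, ← Finset.sum_smul, ← sum_inner, hbi]
  have h3 : (∑ i, ∑ j, invMetric φ x i j • curvSphere (pd i φ x) (tension φ x) (pd j φ x))
      = - ((Fintype.card ι : ℝ) • S.R x S.t0) := by
    have h4 : ∀ j, ⟪tension φ x, pd j φ x⟫ = 0 := by
      intro j
      rw [S.toFrame.inner_pd]
      refine Finset.sum_eq_zero fun c _ => ?_
      rw [S.tension_eq, S.e_eq, LinearIsometry.inner_map_map, S.inner_t0_tan, mul_zero]
    simp only [curvSphere, h4, zero_smul, zero_sub, smul_neg, smul_smul,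
      Finset.sum_neg_distrib, ← Finset.sum_smul]
    rw [S.sum_inv_metric, S.tension_eq]
  rw [h3, inner_sub_left, real_inner_smul_left, real_inner_smul_left, S.inner_t0_c0,
    real_inner_self_eq_norm_sq, S.hc0, ← map_smul]
  rw [neg_neg, sub_neg_eq_add, ← map_add]
  have : (‖S.t0‖ ^ 2 • S.c0 - (Fintype.card ι : ℝ) • S.t0
      - (‖S.t0‖ ^ 2 * 1 ^ 2 - (Fintype.card ι : ℝ) * 0) • S.c0 + (Fintype.card ι : ℝ) • S.t0) = 0 := by
    have h5 : ‖S.t0‖ ^ 2 * 1 ^ 2 - (Fintype.card ι : ℝ) * 0 = ‖S.t0‖ ^ 2 := by ring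
    rw [h5]
    abel
  rw [this, map_zero]

theorem isProperBiharmonic {κ : ι → ℝ} (hκ : ∀ a, S.A a S.t0 = (-κ a) • S.A a S.c0)
    (hbi : ∑ a, S.A a (S.A a S.t0) = (‖S.t0‖ ^ 2) • S.c0 - (Fintype.card ι : ℝ) • S.t0)
    (hne : S.t0 ≠ 0) : IsProperBiharmonic φ := by
  refine ⟨S.bitension_eq hκ hbi, 0, ?_⟩
  rw [S.tension_eq]
  intro h
  apply hne
  have := (S.R 0).injective (h.trans (map_zero _).symm)
  exact this

theorem not_parallel {κ : ι → ℝ} (hκ : ∀ a, S.A a S.t0 = (-κ a) • S.A a S.c0)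
    (a b d : ι) (hbd : κ b ≠ κ d) (habd : ⟪S.A a (S.A b S.c0), S.A d S.c0⟫ ≠ 0) :
    ¬ HasParallelShape φ := by
  intro hpar
  have : Nonempty ι := ⟨a⟩
  have hm : (Fintype.card ι : ℝ) ≠ 0 := by
    exact_mod_cast Fintype.card_ne_zero
  have hμ : ∀ x a b, ⟪∑ i, ∑ j, (S.toFrame.W a x i * S.toFrame.W b x j) • sff φ x i j,
      meanCurv φ x⟫ = if a = b then (1 / (Fintype.card ι : ℝ)) * κ a else 0 := by
    intro x a b
    rw [S.toFrame.sffW, S.fderiv_e, S.tanProj_R, S.hφ, S.meanCurv_eq]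
    simp only [inner_add_left, inner_sub_left, real_inner_smul_left, LinearIsometry.inner_map_map,
      real_inner_smul_right, sum_inner]
    have h1 : ∀ c, ⟪S.A c S.c0, S.t0⟫ = 0 := fun c => by
      rw [real_inner_comm]; exact S.inner_t0_tan c
    have h2 : ⟪S.c0, S.t0⟫ = 0 := by
      rw [real_inner_comm]; exact S.inner_t0_c0
    simp only [h1, h2, S.skew a (S.A b S.c0) S.t0, hκ, real_inner_smul_right, S.hon]
    by_cases hab : a = b
    · subst hab
      simp
    · have hba : b ≠ a := fun h => hab h.symm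
      simp [hab, hba]
  have h3 := S.toFrame.not_parallel (ξ := meanCurv φ)
    (μ := fun a => (1 / (Fintype.card ι : ℝ)) * κ a) hμ 0 (hpar 0) a b d
  rw [S.fderiv_e, S.e_eq, LinearIsometry.inner_map_map] at h3
  rcases mul_eq_zero.1 h3 with h4 | h4
  · exact habd h4
  · apply hbd
    have h5 : (1 / (Fintype.card ι : ℝ)) * (κ b - κ d) = 0 := by
      rw [mul_sub]
      exact h4
    rcases mul_eq_zero.1 h5 with h6 | h6
    · exact absurd h6 (one_div_ne_zero hm)
    · linarith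

end HomFrame

end Pool.Agent.Lib.MP_4617b5_gt
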